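import Mathlib

set_option autoImplicit false
open Set

namespace Pool.Agent.P8e9337

/-- Choice along a well order. -/
theorem rec_choice {W X : Type*} [LinearOrder W] [WellFoundedLT W] [Inhabited X]
    (G : (W → X) → W → X → Prop)
    (hcongr : ∀ T T' α S, (∀ β < α, T β = T' β) → G T α S → G T' α S)
    (hex : ∀ T α, (∀ β < α, G T β (T β)) → ∃ S, G T α S) :
    ∃ T : W → X, ∀ α, G T α (T α) := by
  classical
  let ext : (α : W) → ((β : W) → β < α → X) → (W → X) :=
    fun α ih β => if h : β < α then ih β h else default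
  let F : (α : W) → ((β : W) → β < α → X) → X :=
    fun α ih => Classical.epsilon (fun S => G (ext α ih) α S)
  let T : W → X := (wellFounded_lt (α := W)).fix F
  have hT : ∀ α, T α = F α (fun β _ => T β) := fun α => WellFounded.fix_eq _ _ _
  have hext : ∀ α, ∀ β < α, (ext α (fun β _ => T β)) β = T β := by
    intro α β h
    simp [ext, h]
  refine ⟨T, fun α => ?_⟩
  induction α using WellFoundedLT.induction with
  | ind α ih =>
    obtain ⟨S, hS⟩ := hex T α ih
    have h1 : ∃ S, G (ext α (fun β _ => T β)) α S :=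
      ⟨S, hcongr _ _ _ _ (fun β h => (hext α β h).symm) hS⟩
    have h2 : G (ext α (fun β _ => T β)) α (T α) := by
      rw [hT α]
      exact Classical.epsilon_spec h1
    exact hcongr _ _ _ _ (hext α) h2

variable {W : Type*} [LinearOrder W]

/-- `c` is covered by a finite set and finitely many `T β`, `β < α`. -/
def I (T : W → Set ℕ) (α : W) : Set (Set ℕ) :=
  {c | ∃ (F : Finset ℕ) (G : Finset W), (∀ β ∈ G, β < α) ∧ c ⊆ (F : Set ℕ) ∪ ⋃ β ∈ G, T β}

variable {T T' : W → Set ℕ} {α β γ : W} {c d : Set ℕ}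

theorem I_mono (hc : c ∈ I T α) (h : d ⊆ c) : d ∈ I T α := by
  obtain ⟨F, G, h1, h2⟩ := hc
  exact ⟨F, G, h1, h.trans h2⟩

theorem I_le (h : α ≤ β) (hc : c ∈ I T α) : c ∈ I T β := by
  obtain ⟨F, G, h1, h2⟩ := hc
  exact ⟨F, G, fun γ hγ => (h1 γ hγ).trans_le h, h2⟩

theorem I_union (hc : c ∈ I T α) (hd : d ∈ I T α) : c ∪ d ∈ I T α := by
  classical
  obtain ⟨F, G, h1, h2⟩ := hc
  obtain ⟨F', G', h1', h2'⟩ := hd
  refine ⟨F ∪ F', G ∪ G', ?_, ?_⟩
  · intro γ hγ
    rcases Finset.mem_union.1 hγ with h | h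
    · exact h1 γ h
    · exact h1' γ h
  · intro x hx
    rcases hx with hx | hx
    · rcases h2 hx with h | h
      · left; simp only [Finset.coe_union]; exact Or.inl h
      · right
        simp only [mem_iUnion] at h ⊢
        obtain ⟨b, hb, hx⟩ := h
        exact ⟨b, Finset.mem_union_left _ hb, hx⟩
    · rcases h2' hx with h | h
      · left; simp only [Finset.coe_union]; exact Or.inr h
      · right
        simp only [mem_iUnion] at h ⊢
        obtain ⟨b, hb, hx⟩ := h
        exact ⟨b, Finset.mem_union_right _ hb, hx⟩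

theorem I_finite (h : c.Finite) : c ∈ I T α :=
  ⟨h.toFinset, ∅, by simp, by simp⟩

theorem I_self (h : β < α) : T β ∈ I T α :=
  ⟨∅, {β}, by simpa using h, by simp⟩

theorem I_congr (h : ∀ β < α, T β = T' β) : I T α = I T' α := by
  have key : ∀ {T T' : W → Set ℕ}, (∀ β < α, T β = T' β) → I T α ⊆ I T' α := by
    intro T T' h c hc
    obtain ⟨F, G, h1, h2⟩ := hc
    refine ⟨F, G, h1, h2.trans ?_⟩
    apply union_subset_union_right
    apply iUnion₂_mono
    intro b hb
    rw [h b (h1 b hb)]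
  exact Subset.antisymm (key h) (key (fun β hβ => (h β hβ).symm))

/-- `c` is decided at `β`. -/
def Dec (T : W → Set ℕ) (β : W) (c : Set ℕ) : Prop := T β \ c ∈ I T β ∨ T β ∩ c ∈ I T β

theorem Dec.finite (h : c.Finite) : Dec T β c := Or.inr (I_finite (h.subset inter_subset_right))

theorem Dec.union (hc : Dec T β c) (hd : Dec T β d) : Dec T β (c ∪ d) := by
  rcases hc with hc | hc
  · exact Or.inl (I_mono hc (sdiff_subset_sdiff_right subset_union_left))
  · rcases hd with hd | hd
    · exact Or.inl (I_mono hd (sdiff_subset_sdiff_right subset_union_right))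
    · right
      rw [inter_union_distrib_left]
      exact I_union hc hd

theorem Dec.compl (hc : Dec T β c) : Dec T β cᶜ := by
  rcases hc with hc | hc
  · right; rwa [← sdiff_eq]
  · left; rwa [sdiff_eq, compl_compl]

theorem Dec.inter (hc : Dec T β c) (hd : Dec T β d) : Dec T β (c ∩ d) := by
  have := (hc.compl.union hd.compl).compl
  rwa [compl_union, compl_compl, compl_compl] at this

theorem Dec.sdiff (hc : Dec T β c) (hd : Dec T β d) : Dec T β (c \ d) := by
  rw [sdiff_eq]; exact hc.inter hd.compl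

theorem Dec.biUnion_finset {ι : Type*} (s : Finset ι) (f : ι → Set ℕ)
    (h : ∀ i ∈ s, Dec T β (f i)) : Dec T β (⋃ i ∈ s, f i) := by
  classical
  induction s using Finset.induction_on with
  | empty => simpa using Dec.finite (T := T) (β := β) finite_empty
  | insert a s ha ih =>
    rw [Finset.set_biUnion_insert]
    exact (h a (Finset.mem_insert_self _ _)).union
      (ih (fun i hi => h i (Finset.mem_insert_of_mem hi)))

theorem Dec.congr {e : Set ℕ} (h : T β ∩ c = T β ∩ e) (hc : Dec T β c) : Dec T β e := by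
  rcases hc with hc | hc
  · left
    have : T β \ e = T β \ c := by
      ext x
      have := Set.ext_iff.1 h x
      simp only [mem_inter_iff, mem_sdiff] at this ⊢
      tauto
    rwa [this]
  · right; rwa [← h]


theorem not_mem_of_sdiff {c d : Set ℕ} (h1 : c ∉ I T α) (h2 : d ∈ I T α) : c \ d ∉ I T α := by
  intro h
  apply h1
  refine I_mono (I_union h h2) ?_
  intro x hx
  by_cases hd : x ∈ d
  · exact Or.inr hd
  · exact Or.inl ⟨hx, hd⟩

/-- Cofinal sequence. -/
theorem exists_cofinal (hα : (Iio α).Countable) :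
    ∃ c : ℕ → Set ℕ, Monotone c ∧ (∀ n, c n ∈ I T α) ∧ (∀ d ∈ I T α, ∃ n, d ⊆ c n) ∧
      ∀ n, ∀ β, (∀ γ < α, Dec T β (T γ)) → Dec T β (c n) := by
  classical
  obtain ⟨f, hf⟩ : ∃ f : ℕ → Option (Iio α), Function.Surjective f := by
    have := hα.to_subtype
    exact exists_surjective_nat _
  let g : ℕ → Set ℕ := fun n => match f n with
    | none => ∅
    | some β => T β
  have hg : ∀ n, g n ∈ I T α := by
    intro n
    simp only [g]
    split
    · exact I_finite finite_empty
    · rename_i β _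
      exact I_self β.2
  have hIun : ∀ (s : Finset ℕ), (⋃ i ∈ s, g i) ∈ I T α := by
    intro s
    induction s using Finset.induction_on with
    | empty => simpa using I_finite finite_empty
    | insert a s ha ih =>
      rw [Finset.set_biUnion_insert]
      exact I_union (hg a) ih
  refine ⟨fun n => (Finset.range n : Set ℕ) ∪ ⋃ i ∈ Finset.range n, g i, ?_, ?_, ?_, ?_⟩
  · intro m n hmn
    apply union_subset_union
    · simpa using hmn
    · intro x hx
      simp only [mem_iUnion, Finset.mem_range] at hx ⊢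
      obtain ⟨i, hi, hx⟩ := hx
      exact ⟨i, hi.trans_le hmn, hx⟩
  · intro n
    exact I_union (I_finite (Finset.finite_toSet _)) (hIun _)
  · rintro d ⟨F, G, hG, hd⟩
    -- bound for F
    obtain ⟨N, hN⟩ : ∃ N, ∀ x ∈ F, x < N := ⟨F.sup id + 1, fun x hx =>
      Nat.lt_succ_of_le (Finset.le_sup (f := id) hx)⟩
    obtain ⟨M, hM⟩ : ∃ M, ∀ β ∈ G, ∃ i < M, g i = T β := by
      clear hd
      induction G using Finset.induction_on with
      | empty => exact ⟨0, by simp⟩
      | insert a s ha ih =>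
        obtain ⟨M, hM⟩ := ih (fun β hβ => hG β (Finset.mem_insert_of_mem hβ))
        obtain ⟨i, hi⟩ := hf (some ⟨a, hG a (Finset.mem_insert_self _ _)⟩)
        refine ⟨max M (i + 1), fun β hβ => ?_⟩
        rcases Finset.mem_insert.1 hβ with rfl | hβ
        · refine ⟨i, by omega, ?_⟩
          simp only [g, hi]
        · obtain ⟨j, hj, h⟩ := hM β hβ
          exact ⟨j, by omega, h⟩
    refine ⟨max N M, hd.trans ?_⟩
    apply union_subset_union
    · intro x hx
      simp only [Finset.coe_range, mem_Iio]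
      exact lt_of_lt_of_le (hN x hx) (le_max_left _ _)
    · intro x hx
      simp only [mem_iUnion, Finset.mem_range] at hx ⊢
      obtain ⟨β, hβ, hx⟩ := hx
      obtain ⟨i, hi, h⟩ := hM β hβ
      exact ⟨i, lt_of_lt_of_le hi (le_max_right _ _), by rw [h]; exact hx⟩
  · intro n β hβ
    refine (Dec.finite (Finset.finite_toSet _)).union ?_
    apply Dec.biUnion_finset
    intro i _
    simp only [g]
    split
    · exact Dec.finite finite_empty
    · rename_i γ _
      exact hβ γ γ.2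

/-- Promise lemma. -/
theorem exists_promise (hα : (Iio α).Countable) {U : Set ℕ} (hU : U ∉ I T α) :
    ∃ B ⊆ U, B.Infinite ∧ ∀ β < α, (B ∩ T β).Finite := by
  classical
  obtain ⟨c, hmono, hc, hcof, -⟩ := exists_cofinal (T := T) hα
  have h1 : ∀ (n : ℕ) (s : Finset ℕ), ∃ x ∈ U, x ∉ c n ∧ x ∉ s := by
    intro n s
    by_contra hcon
    push Not at hcon
    apply hU
    refine I_mono (I_union (hc n) (I_finite (Finset.finite_toSet s))) ?_
    intro x hx
    by_cases h : x ∈ c n
    · exact Or.inl h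
    · exact Or.inr (hcon x hx h)
  choose pick hp1 hp2 hp3 using h1
  -- strictly: use x_n = pick n (range up to previous)
  let st : ℕ → Finset ℕ := fun n => Nat.rec ∅ (fun n s => insert (pick n s) s) n
  have hst : ∀ n, st (n + 1) = insert (pick n (st n)) (st n) := fun n => rfl
  let x : ℕ → ℕ := fun n => pick n (st n)
  have hxmem : ∀ n m, n < m → x n ∈ st m := by
    intro n m h
    induction m with
    | zero => omega
    | succ m ih =>
      rw [hst]
      rcases Nat.lt_succ_iff_lt_or_eq.1 h with h | rfl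
      · exact Finset.mem_insert_of_mem (ih h)
      · exact Finset.mem_insert_self _ _
  have hinj : Function.Injective x := by
    intro n m h
    rcases lt_trichotomy n m with hlt | rfl | hlt
    · exact absurd (show x m ∈ st m from h ▸ hxmem n m hlt) (hp3 m (st m))
    · rfl
    · exact absurd (show x n ∈ st n from h ▸ hxmem m n hlt) (hp3 n (st n))
  refine ⟨range x, ?_, infinite_range_of_injective hinj, ?_⟩
  · rintro _ ⟨n, rfl⟩
    exact hp1 _ _
  · intro β hβ
    obtain ⟨N, hN⟩ := hcof (T β) (I_self hβ)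
    refine ((Finset.range N).image x).finite_toSet.subset ?_
    rintro _ ⟨⟨n, rfl⟩, hx⟩
    simp only [Finset.coe_image, Finset.coe_range, mem_image, mem_Iio]
    refine ⟨n, ?_, rfl⟩
    by_contra hn
    exact hp2 n (st n) (hmono (not_lt.1 hn) (hN hx))


/-- Extension step. -/
theorem exists_ext (hα : (Iio α).Countable)
    (hdec : ∀ β < α, ∀ γ < α, Dec T β (T γ)) 
    (𝓑 : Set (Set ℕ)) (h𝓑 : 𝓑.Countable) (hB : ∀ B ∈ 𝓑, ∀ β < α, (B ∩ T β).Finite)
    (𝓡 : Set (Set W)) (h𝓡 : 𝓡.Countable) (h𝓡0 : 𝓡.Nonempty)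
    (hR : ∀ R ∈ 𝓡, R ⊆ Iio α ∧ ∀ c ∈ I T α, ∃ ξ ∈ R, T ξ \ c ∉ I T ξ) :
    ∃ S : Set ℕ, (∀ β < α, Dec T β S) ∧ S ∉ I T α ∧ (∀ B ∈ 𝓑, (B ∩ S).Finite) ∧
      (∀ R ∈ 𝓡, ∀ c ∈ I T α, ∃ ξ ∈ R, T ξ \ c ∉ I T ξ ∧ T ξ \ S ∈ I T ξ) ∧
      (∀ R ∈ 𝓡, ∀ c ∈ I T α, ∃ ξ ∈ R, T ξ \ (c ∪ S) ∉ I T ξ) := by
  classical
  obtain ⟨c, hmono, hc, hcof, hcdec⟩ := exists_cofinal (T := T) hα
  obtain ⟨r, hr⟩ := h𝓡.exists_eq_range h𝓡0
  -- promises
  obtain ⟨b, hb⟩ : ∃ b : ℕ → Set ℕ, 𝓑 ⊆ range b ∧ ∀ i, ∀ β < α, (b i ∩ T β).Finite := by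
    rcases 𝓑.eq_empty_or_nonempty with h | h
    · exact ⟨fun _ => ∅, by simp [h], by simp⟩
    · obtain ⟨b, hb⟩ := h𝓑.exists_eq_range h
      refine ⟨b, hb.subset, fun i β hβ => hB _ ?_ β hβ⟩
      rw [hb]; exact mem_range_self i
  have hrR : ∀ j, r j ∈ 𝓡 := fun j => by rw [hr]; exact mem_range_self j
  -- choice of points
  have h1 : ∀ (j m : ℕ), ∃ ξ ∈ r j, T ξ \ c m ∉ I T ξ := fun j m => (hR _ (hrR j)).2 _ (hc m)
  choose ξ hξ1 hξ2 using h1
  have hξα : ∀ j m, ξ j m < α := fun j m => (hR _ (hrR j)).1 (hξ1 j m)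
  have h2 : ∀ (j m : ℕ), ∃ m' > m, T (ξ j m) ⊆ c m' := by
    intro j m
    obtain ⟨n, hn⟩ := hcof _ (I_self (T := T) (hξα j m))
    exact ⟨max n (m + 1), by simp, hn.trans (hmono (le_max_left _ _))⟩
  choose nx hnx1 hnx2 using h2
  let jj : ℕ → ℕ := fun n => (Nat.unpair (n / 2)).1
  let m : ℕ → ℕ := fun n => Nat.rec 0 (fun n m => nx (jj n) m) n
  have hm : ∀ n, m (n + 1) = nx (jj n) (m n) := fun n => rfl
  have hmlt : ∀ n, m n < m (n + 1) := fun n => by rw [hm]; exact hnx1 _ _
  have hmm : StrictMono m := strictMono_nat_of_lt_succ hmlt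
  let z : ℕ → W := fun n => ξ (jj n) (m n)
  have hzα : ∀ n, z n < α := fun n => hξα _ _
  let P : ℕ → Set ℕ := fun n => ⋃ i ∈ Finset.range (n + 1), b i
  have hP : ∀ n, ∀ β < α, (T β ∩ P n).Finite := by
    intro n β hβ
    simp only [P]
    rw [inter_iUnion₂]
    refine Finite.biUnion (Finset.finite_toSet _) ?_
    intro i _
    rw [inter_comm]; exact hb.2 i β hβ
  let C : ℕ → Set ℕ := fun n => (T (z n) \ c (m n)) \ P n
  have hzc : ∀ n, T (z n) \ c (m n) ∉ I T (z n) := fun n => hξ2 _ _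
  have hCI : ∀ n, C n ∉ I T (z n) := by
    intro n h
    apply hzc n
    refine I_mono (I_union h (I_finite (hP n (z n) (hzα n)))) ?_
    intro x hx
    by_cases hxP : x ∈ P n
    · exact Or.inr ⟨hx.1, hxP⟩
    · exact Or.inl ⟨hx, hxP⟩
  have hCsub : ∀ n, C n ⊆ c (m (n + 1)) := by
    intro n x hx
    rw [hm]
    exact hnx2 _ _ hx.1.1
  have hCdisj : ∀ n k, m n ≥ k → Disjoint (C n) (c k) := by
    intro n k hk
    rw [disjoint_left]
    intro x hx hxc
    exact hx.1.2 (hmono hk hxc)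
  have hdec' : ∀ β < α, ∀ n, Dec T β (C n) := by
    intro β hβ n
    have h3 : Dec T β (T (z n) \ c (m n)) :=
      (hdec β hβ _ (hzα n)).sdiff (hcdec _ β (fun γ hγ => hdec β hβ γ hγ))
    have h4 : C n = (T (z n) \ c (m n)) \ (T (z n) ∩ P n) := by
      ext x; simp only [C, mem_sdiff, mem_inter_iff]; tauto
    rw [h4]
    exact h3.sdiff (Dec.finite (hP n _ (hzα n)))
  let S : Set ℕ := ⋃ n, C (2 * n)
  have hS : ∀ k N, k ≤ m N → S ∩ c k ⊆ ⋃ n ∈ Finset.range N, C (2 * n) := by
    intro k N hk x hx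
    obtain ⟨n, hn⟩ := mem_iUnion.1 hx.1
    simp only [mem_iUnion, Finset.mem_range]
    refine ⟨n, ?_, hn⟩
    by_contra hcon
    have : m N ≤ m (2 * n) := hmm.monotone (by omega)
    exact (disjoint_left.1 (hCdisj (2 * n) k (hk.trans this))) hn hx.2
  have hle : ∀ n, n ≤ m n := hmm.id_le
  have hCdisj2 : ∀ n k, n ≠ k → Disjoint (C n) (C k) := by
    intro n k hnk
    rcases lt_or_gt_of_ne hnk with h | h
    · exact ((hCdisj k (m (n + 1)) (hmm.monotone (show n + 1 ≤ k from h))).mono_right (hCsub n)).symm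
    · exact (hCdisj n (m (k + 1)) (hmm.monotone (show k + 1 ≤ n from h))).mono_right (hCsub k)
  have hjj : ∀ j N, ∃ n ≥ N, jj (2 * n) = j ∧ jj (2 * n + 1) = j := by
    intro j N
    refine ⟨Nat.pair j N, Nat.right_le_pair _ _, ?_, ?_⟩
    · simp only [jj]
      rw [Nat.mul_div_cancel_left _ (by norm_num)]; simp
    · simp only [jj]
      have : (2 * Nat.pair j N + 1) / 2 = Nat.pair j N := by omega
      rw [this]; simp
  refine ⟨S, ?_, ?_, ?_, ?_, ?_⟩
  · intro β hβ
    obtain ⟨k, hk⟩ := hcof _ (I_self (T := T) hβ)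
    have hE : Dec T β (⋃ n ∈ Finset.range k, C (2 * n)) :=
      Dec.biUnion_finset _ _ (fun i _ => hdec' β hβ _)
    refine Dec.congr ?_ hE
    apply Subset.antisymm
    · intro x hx
      refine ⟨hx.1, ?_⟩
      have := hx.2
      simp only [mem_iUnion] at this
      obtain ⟨n, _, hn⟩ := this
      exact mem_iUnion.2 ⟨n, hn⟩
    · intro x hx
      exact ⟨hx.1, hS k k (hle k) ⟨hx.2, hk hx.1⟩⟩
  · intro hSI
    obtain ⟨k, hk⟩ := hcof _ hSI
    have h5 : C (2 * k) ⊆ S := fun x hx => mem_iUnion.2 ⟨k, hx⟩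
    have h6 : C (2 * k) = ∅ := by
      have h7 := hCdisj (2 * k) k ((hle k).trans (hmm.monotone (by omega)))
      exact disjoint_self.1 (h7.mono_right (h5.trans hk))
    apply hCI (2 * k)
    rw [h6]
    exact I_finite finite_empty
  · intro B hB'
    obtain ⟨i, rfl⟩ := hb.1 hB'
    have : b i ∩ S ⊆ ⋃ n ∈ Finset.range i, (b i ∩ T (z (2 * n))) := by
      rintro x ⟨hx1, hx2⟩
      obtain ⟨n, hn⟩ := mem_iUnion.1 hx2
      simp only [mem_iUnion, Finset.mem_range]
      refine ⟨n, ?_, hx1, hn.1.1⟩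
      by_contra hcon
      apply hn.2
      simp only [P, mem_iUnion, Finset.mem_range]
      exact ⟨i, by omega, hx1⟩
    refine Finite.subset ?_ this
    exact Finite.biUnion (Finset.finite_toSet _) (fun n _ => hb.2 _ _ (hzα _))
  · intro R hR' d hd
    rw [hr] at hR'
    obtain ⟨j, rfl⟩ := hR'
    obtain ⟨k, hk⟩ := hcof _ hd
    obtain ⟨n, hn, hn1, -⟩ := hjj j k
    refine ⟨z (2 * n), ?_, ?_, ?_⟩
    · have := hξ1 (jj (2 * n)) (m (2 * n))
      rw [hn1] at this
      simp only [z]; rw [hn1]; exact this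
    · intro h
      apply hCI (2 * n)
      refine I_mono h ?_
      intro x hx
      refine ⟨hx.1.1, fun hxd => ?_⟩
      exact disjoint_left.1 (hCdisj (2 * n) k
        ((hn.trans (hle n)).trans (hmm.monotone (show n ≤ 2 * n by omega)))) hx (hk hxd)
    · have h8 : T (z (2 * n)) ∩ c (m (2 * n)) ∈ I T (z (2 * n)) := by
        rcases hcdec (m (2 * n)) (z (2 * n)) (fun γ hγ => hdec _ (hzα _) γ hγ) with h | h
        · exact absurd h (hzc _)
        · exact h
      refine I_mono (I_union h8 (I_finite (hP (2 * n) (z (2 * n)) (hzα (2 * n))))) ?_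
      rintro x ⟨hx1, hx2⟩
      by_cases hxc : x ∈ c (m (2 * n))
      · exact Or.inl ⟨hx1, hxc⟩
      · by_cases hxP : x ∈ P (2 * n)
        · exact Or.inr ⟨hx1, hxP⟩
        · exact absurd (show x ∈ S from mem_iUnion.2 ⟨n, ⟨⟨hx1, hxc⟩, hxP⟩⟩) hx2
  · intro R hR' d hd
    rw [hr] at hR'
    obtain ⟨j, rfl⟩ := hR'
    obtain ⟨k, hk⟩ := hcof _ hd
    obtain ⟨n, hn, -, hn1⟩ := hjj j k
    refine ⟨z (2 * n + 1), ?_, ?_⟩
    · have := hξ1 (jj (2 * n + 1)) (m (2 * n + 1))
      rw [hn1] at this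
      simp only [z]; rw [hn1]; exact this
    · intro h
      apply hCI (2 * n + 1)
      refine I_mono h ?_
      intro x hx
      refine ⟨hx.1.1, ?_⟩
      rintro (hxd | hxS)
      · exact disjoint_left.1 (hCdisj (2 * n + 1) k
          ((hn.trans (hle n)).trans (hmm.monotone (show n ≤ 2 * n + 1 by omega)))) hx (hk hxd)
      · obtain ⟨l, hl⟩ := mem_iUnion.1 hxS
        exact disjoint_left.1 (hCdisj2 (2 * n + 1) (2 * l) (by omega)) hx hl


/-- `R` is not relatively compact at stage `α`. -/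
def Unbd (T : W → Set ℕ) (α : W) (R : Set W) : Prop := ∀ c ∈ I T α, ∃ ξ ∈ R, T ξ \ c ∉ I T ξ

/-- main combinatorial theorem -/
theorem exists_T [WellFoundedLT W] (hW : ∀ α : W, (Iio α).Countable)
    (U : W → Set ℕ) (R : W → Set W) (hR : ∀ α, R α ⊆ Iio α) :
    ∃ T : W → Set ℕ, (∀ β γ, β < γ → Dec T β (T γ)) ∧ (∀ α, T α ∉ I T α) ∧
      (∀ α, (Iio α).Infinite → U α ∉ I T α → ∃ B ⊆ U α, B.Infinite ∧ ∀ γ, (B ∩ T γ).Finite) ∧
      (∀ α, (Iio α).Infinite → Unbd T α (R α) →
        ∀ γ ≥ α, ∀ c ∈ I T γ, ∃ ξ ∈ R α, T ξ \ c ∉ I T ξ ∧ T ξ \ T γ ∈ I T ξ) := by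
  classical
  -- promise function
  let Bf : (W → Set ℕ) → W → Set ℕ := fun T β =>
    if h : (Iio β).Infinite ∧ ∃ B ⊆ U β, B.Infinite ∧ ∀ γ < β, (B ∩ T γ).Finite
    then Classical.choose h.2 else ∅
  have hBf0 : ∀ T β, ¬ (Iio β).Infinite → Bf T β = ∅ := by
    intro T β h
    simp only [Bf]
    rw [dif_neg (fun h' => h h'.1)]
  have hBf1 : ∀ T β, (Iio β).Infinite → (∃ B ⊆ U β, B.Infinite ∧ ∀ γ < β, (B ∩ T γ).Finite) →
      Bf T β ⊆ U β ∧ (Bf T β).Infinite ∧ ∀ γ < β, (Bf T β ∩ T γ).Finite := by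
    intro T β h h'
    simp only [Bf]
    rw [dif_pos ⟨h, h'⟩]
    exact Classical.choose_spec h'
  have hBf2 : ∀ T β, ∀ γ < β, (Bf T β ∩ T γ).Finite := by
    intro T β
    by_cases h : (Iio β).Infinite ∧ ∃ B ⊆ U β, B.Infinite ∧ ∀ γ < β, (B ∩ T γ).Finite
    · exact (hBf1 T β h.1 h.2).2.2
    · intro γ _
      simp only [Bf]
      rw [dif_neg h]
      simp
  have hBfc : ∀ T T' β, (∀ γ < β, T γ = T' γ) → Bf T β = Bf T' β := by
    intro T T' β h
    have h1 : ∀ B : Set ℕ, (∀ γ < β, (B ∩ T γ).Finite) ↔ (∀ γ < β, (B ∩ T' γ).Finite) := by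
      intro B
      constructor
      · intro h' γ hγ
        rw [← h γ hγ]; exact h' γ hγ
      · intro h' γ hγ
        rw [h γ hγ]; exact h' γ hγ
    simp only [Bf, h1]
  let G : (W → Set ℕ) → W → Set ℕ → Prop := fun T α S =>
    (∀ β < α, Dec T β S) ∧ S ∉ I T α ∧ (∀ β ≤ α, (Bf T β ∩ S).Finite) ∧
    (∀ β ≤ α, (Iio β).Infinite → Unbd T β (R β) →
      (∀ c ∈ I T α, ∃ ξ ∈ R β, T ξ \ c ∉ I T ξ ∧ T ξ \ S ∈ I T ξ) ∧
      (∀ c ∈ I T α, ∃ ξ ∈ R β, T ξ \ (c ∪ S) ∉ I T ξ)) ∧
    ((Iio α).Infinite → ∀ c ∈ I T α, ∃ ξ < α, T ξ \ (c ∪ S) ∉ I T ξ) ∧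
    (¬ (Iio α).Infinite → S = {m | (Nat.unpair m).1 = (Iio α).ncard})
  have hcongr : ∀ T T' α S, (∀ β < α, T β = T' β) → G T α S → G T' α S := by
    intro T T' α S h hG
    have hI : ∀ β ≤ α, I T β = I T' β := fun β hβ => I_congr (fun γ hγ => h γ (hγ.trans_le hβ))
    obtain ⟨g1, g2, g3, g4, g5, g6⟩ := hG
    have hx : ∀ β < α, ∀ e : Set ℕ, (T β \ e ∈ I T β ↔ T' β \ e ∈ I T' β) := by
      intro β hβ e
      rw [h β hβ, hI β hβ.le]
    refine ⟨?_, ?_, ?_, ?_, ?_, g6⟩
    · intro β hβ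
      have := g1 β hβ
      unfold Dec at this ⊢
      rwa [h β hβ, hI β hβ.le] at this
    · rw [← hI α le_rfl]; exact g2
    · intro β hβ
      rw [← hBfc T T' β (fun γ hγ => h γ (hγ.trans_le hβ))]
      exact g3 β hβ
    · intro β hβ hinf hU'
      have hRα : ∀ ξ ∈ R β, ξ < α := fun ξ hξ => (hR β hξ).trans_le hβ
      have hU'' : Unbd T β (R β) := by
        intro c hc
        rw [hI β hβ] at hc
        obtain ⟨ξ, hξ, hh⟩ := hU' c hc
        exact ⟨ξ, hξ, fun hcon => hh ((hx ξ (hRα ξ hξ) c).1 hcon)⟩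
      obtain ⟨k1, k2⟩ := g4 β hβ hinf hU''
      constructor
      · intro c hc
        rw [← hI α le_rfl] at hc
        obtain ⟨ξ, hξ, hh, hh'⟩ := k1 c hc
        exact ⟨ξ, hξ, fun hcon => hh ((hx ξ (hRα ξ hξ) c).2 hcon), (hx ξ (hRα ξ hξ) S).1 hh'⟩
      · intro c hc
        rw [← hI α le_rfl] at hc
        obtain ⟨ξ, hξ, hh⟩ := k2 c hc
        exact ⟨ξ, hξ, fun hcon => hh ((hx ξ (hRα ξ hξ) _).2 hcon)⟩
    · intro hinf c hc
      rw [← hI α le_rfl] at hc
      obtain ⟨ξ, hξ, hh⟩ := g5 hinf c hc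
      exact ⟨ξ, hξ, fun hcon => hh ((hx ξ hξ _).2 hcon)⟩
  have hex : ∀ T α, (∀ β < α, G T β (T β)) → ∃ S, G T α S := by
    intro T α ih
    by_cases hinf : (Iio α).Infinite
    · -- big case
      have hdec : ∀ β < α, ∀ γ < α, Dec T β (T γ) := by
        intro β hβ γ hγ
        rcases lt_trichotomy γ β with h | rfl | h
        · exact Or.inr (I_mono (I_self h) inter_subset_right)
        · left; rw [sdiff_self]; exact I_finite finite_empty
        · exact (ih γ hγ).1 β h
      have hself : ∀ ξ < α, T ξ ∉ I T ξ := fun ξ hξ => (ih ξ hξ).2.1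
      -- Iio α unbounded
      have hIio : ∀ c ∈ I T α, ∃ ξ ∈ Iio α, T ξ \ c ∉ I T ξ := by
        rintro c ⟨F, H, hH, hc⟩
        by_cases hξ : ∃ ξ < α, ∀ g ∈ H, g < ξ
        · obtain ⟨ξ, hξ, hg⟩ := hξ
          exact ⟨ξ, hξ, not_mem_of_sdiff (hself ξ hξ) ⟨F, H, hg, hc⟩⟩
        · push Not at hξ
          have hne : H.Nonempty := by
            obtain ⟨ξ, hξ'⟩ := hinf.nonempty
            obtain ⟨g, hg, _⟩ := hξ ξ hξ'
            exact ⟨g, hg⟩
          set m := H.max' hne with hm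
          have hmH : m ∈ H := H.max'_mem hne
          have hmα : m < α := hH m hmH
          have hinfm : (Iio m).Infinite := by
            have h1 : Iio α ⊆ insert m (Iio m) := by
              intro x hx
              obtain ⟨g, hg, hxg⟩ := hξ x hx
              have := H.le_max' g hg
              rcases (hxg.trans this).lt_or_eq with h | h
              · exact Or.inr h
              · exact Or.inl h
            intro hfin
            exact hinf ((hfin.insert m).subset h1)
          obtain ⟨ξ, hξm, h2⟩ := (ih m hmα).2.2.2.2.1 hinfm (↑F ∪ ⋃ β ∈ H.erase m, T β)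
            ⟨F, H.erase m, fun β hβ => by
              have h3 := Finset.mem_erase.1 hβ
              exact lt_of_le_of_ne (H.le_max' β h3.2) h3.1, subset_rfl⟩
          refine ⟨ξ, hξm.trans hmα, fun hcon => h2 (I_mono hcon ?_)⟩
          rintro x ⟨hx1, hx2⟩
          refine ⟨hx1, fun hxc => hx2 ?_⟩
          rcases hc hxc with h | h
          · exact Or.inl (Or.inl h)
          · simp only [mem_iUnion] at h
            obtain ⟨b, hb, hxb⟩ := h
            by_cases hbm : b = m
            · right; rw [← hbm]; exact hxb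
            · left; right
              simp only [mem_iUnion]
              exact ⟨b, Finset.mem_erase.2 ⟨hbm, hb⟩, hxb⟩
      have hRR : ∀ β ≤ α, (Iio β).Infinite → Unbd T β (R β) →
          ∀ c ∈ I T α, ∃ ξ ∈ R β, T ξ \ c ∉ I T ξ := by
        intro β hβ hβinf hU' c hc
        rcases hβ.lt_or_eq with hβα | rfl
        · obtain ⟨F, H, hH, hc⟩ := hc
          have hne : (insert β H).Nonempty := ⟨β, Finset.mem_insert_self _ _⟩
          set m := (insert β H).max' hne with hm
          have hmH : m ∈ insert β H := (insert β H).max'_mem hne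
          have hmα : m < α := by
            rcases Finset.mem_insert.1 hmH with h | h
            · rw [h]; exact hβα
            · exact hH m h
          have hβm : β ≤ m := (insert β H).le_max' β (Finset.mem_insert_self _ _)
          obtain ⟨ξ, hξm, h2⟩ := ((ih m hmα).2.2.2.1 β hβm hβinf hU').2
            (↑F ∪ ⋃ β ∈ H.erase m, T β)
            ⟨F, H.erase m, fun b hb => by
              have h3 := Finset.mem_erase.1 hb
              exact lt_of_le_of_ne ((insert β H).le_max' b (Finset.mem_insert_of_mem h3.2)) h3.1,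
              subset_rfl⟩
          refine ⟨ξ, hξm, fun hcon => h2 (I_mono hcon ?_)⟩
          rintro x ⟨hx1, hx2⟩
          refine ⟨hx1, fun hxc => hx2 ?_⟩
          rcases hc hxc with h | h
          · exact Or.inl (Or.inl h)
          · simp only [mem_iUnion] at h
            obtain ⟨b, hb, hxb⟩ := h
            by_cases hbm : b = m
            · right; rw [← hbm]; exact hxb
            · left; right
              simp only [mem_iUnion]
              exact ⟨b, Finset.mem_erase.2 ⟨hbm, hb⟩, hxb⟩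
        · exact hU' c hc
      have hcIic : (Iic α).Countable := by
        have : Iic α = insert α (Iio α) := by
          ext x; simp [le_iff_eq_or_lt]
        rw [this]; exact (hW α).insert α
      obtain ⟨S, s1, s2, s3, s4, s5⟩ := exists_ext (hW α) hdec
        ((fun β => Bf T β) '' Iic α) (hcIic.image _)
        (by
          rintro _ ⟨β, hβ, rfl⟩ γ hγ
          rcases lt_or_ge γ β with h | h
          · exact hBf2 T β γ h
          · exact (ih γ hγ).2.2.1 β h)
        (insert (Iio α) (R '' {β | β ≤ α ∧ (Iio β).Infinite ∧ Unbd T β (R β)}))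
        (((hcIic.mono (fun β hβ => hβ.1)).image _).insert _)
        (insert_nonempty _ _)
        (by
          rintro Q (rfl | ⟨β, ⟨hβ, hβinf, hβU⟩, rfl⟩)
          · exact ⟨subset_rfl, hIio⟩
          · exact ⟨(hR β).trans (Iio_subset_Iio hβ), hRR β hβ hβinf hβU⟩)
      refine ⟨S, s1, s2, ?_, ?_, ?_, ?_⟩
      · intro β hβ
        exact s3 _ ⟨β, hβ, rfl⟩
      · intro β hβ hβinf hβU
        have hmem : R β ∈ insert (Iio α) (R '' {β | β ≤ α ∧ (Iio β).Infinite ∧ Unbd T β (R β)}) :=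
          Or.inr ⟨β, ⟨hβ, hβinf, hβU⟩, rfl⟩
        exact ⟨s4 _ hmem, s5 _ hmem⟩
      · intro _
        exact s5 _ (Or.inl rfl)
      · intro h
        exact absurd hinf h
    · -- small case
      have hfin : (Iio α).Finite := not_infinite.1 hinf
      set S : Set ℕ := {m | (Nat.unpair m).1 = (Iio α).ncard} with hS
      have hβfin : ∀ β ≤ α, ¬ (Iio β).Infinite := fun β hβ =>
        not_infinite.2 (hfin.subset (Iio_subset_Iio hβ))
      have hTβ : ∀ β < α, T β = {m | (Nat.unpair m).1 = (Iio β).ncard} := fun β hβ =>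
        (ih β hβ).2.2.2.2.2 (hβfin β hβ.le)
      have hlt : ∀ β < α, (Iio β).ncard < (Iio α).ncard := by
        intro β hβ
        apply ncard_lt_ncard _ hfin
        rw [ssubset_iff_of_subset (Iio_subset_Iio hβ.le)]
        exact ⟨β, hβ, lt_irrefl β⟩
      have hdisj : ∀ β < α, T β ∩ S = ∅ := by
        intro β hβ
        rw [hTβ β hβ]
        ext m
        simp only [hS, mem_inter_iff, mem_ofPred_eq, mem_empty_iff_false, iff_false, not_and]
        intro h1 h2
        have := hlt β hβ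
        omega
      have hSinf : S.Infinite := by
        have : Set.Infinite (range (fun k : ℕ => Nat.pair (Iio α).ncard k)) := by
          apply infinite_range_of_injective
          intro a b hab
          simpa using hab
        refine this.mono ?_
        rintro _ ⟨k, rfl⟩
        simp [hS]
      refine ⟨S, ?_, ?_, ?_, ?_, ?_, ?_⟩
      · intro β hβ
        right
        rw [hdisj β hβ]
        exact I_finite finite_empty
      · rintro ⟨F, H, hH, hc⟩
        apply hSinf
        refine F.finite_toSet.subset ?_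
        intro x hx
        rcases hc hx with h | h
        · exact h
        · simp only [mem_iUnion] at h
          obtain ⟨b, hb, hxb⟩ := h
          have : x ∈ T b ∩ S := ⟨hxb, hx⟩
          rw [hdisj b (hH b hb)] at this
          exact absurd this (notMem_empty _)
      · intro β hβ
        rw [hBf0 T β (hβfin β hβ)]
        simp
      · intro β hβ h
        exact absurd h (hβfin β hβ)
      · intro h
        exact absurd h hinf
      · intro _
        rfl
  obtain ⟨T, hT⟩ := rec_choice G hcongr hex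
  refine ⟨T, fun β γ h => (hT γ).1 β h, fun α => (hT α).2.1, ?_, ?_⟩
  · intro α hinf hU
    obtain ⟨b1, b2, b3⟩ := hBf1 T α hinf (exists_promise (hW α) hU)
    refine ⟨Bf T α, b1, b2, fun γ => ?_⟩
    rcases lt_or_ge γ α with h | h
    · exact b3 γ h
    · exact (hT γ).2.2.1 α h
  · intro α hinf hU γ hγ
    exact ((hT γ).2.2.2.1 α hγ hinf hU).1

end Pool.Agent.P8e9337
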