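import Mathlib

/-! # MP_8e9337_gt: definitions

Jensen's diamond principle, countable tightness, `s`-groups, `k`-spaces. -/

open Set Filter Topology Order Cardinal Ordinal

namespace P8e9337

/-- Jensen's principle `♢` (for `ω₁`): there are sets `A a` such that for every
`X ⊆ ω₁` the set of all `a < ω₁` with `X ∩ a = A a` is stationary. -/
def Diamond : Prop :=
  ∃ A : (ω₁ : Ordinal.{0}).ToType → Set (ω₁ : Ordinal.{0}).ToType,
    ∀ X : Set (ω₁ : Ordinal.{0}).ToType, IsStationary {a | X ∩ Iio a = A a}

/-- Countable tightness. -/
def CountablyTight (X : Type*) [TopologicalSpace X] : Prop :=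
  ∀ (A : Set X) (x : X), x ∈ closure A → ∃ B ⊆ A, B.Countable ∧ x ∈ closure B

/-- `s`-groups: the topology is the finest Hausdorff group topology in which its convergent
sequences converge. -/
def IsSGroup (G : Type*) [Group G] (τ : TopologicalSpace G) : Prop :=
  ∀ σ : TopologicalSpace G, @IsTopologicalGroup G σ _ → @T2Space G σ →
    (∀ u : ℕ → G, (∃ x : G, Tendsto u atTop (@nhds G τ x)) →
      ∃ y : G, Tendsto u atTop (@nhds G σ y)) → τ ≤ σ

/-- `k`-spaces. -/
def IsKSpace (X : Type*) [TopologicalSpace X] : Prop :=
  ∀ A : Set X, (∀ K : Set X, IsCompact K → IsClosed (A ∩ K)) → IsClosed A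

/-- The Moore-Mrowka statement: compact Hausdorff spaces of countable tightness are sequential. -/
def MooreMrowka : Prop :=
  ∀ (K : Type) [TopologicalSpace K] [CompactSpace K] [T2Space K],
    CountablyTight K → SequentialSpace K

/-- The interface between the two halves of the proof: a compact Hausdorff zero-dimensional
countably tight space `K` with a sequentially closed, not closed set, such that all
sequentially continuous maps from `K` to regular spaces are continuous. -/
structure GoodK (K : Type) [TopologicalSpace K] (p : K) (X : Set K) : Prop where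
  cpt : CompactSpace K
  t2 : T2Space K
  tight : CountablyTight K
  sep : ∀ x y : K, x ≠ y → ∃ C : Set K, IsClopen C ∧ x ∈ C ∧ y ∉ C
  notMem : p ∉ X
  mem_closure : p ∈ closure X
  seqClosed : IsSeqClosed X
  cont : ∀ (Z : Type) [TopologicalSpace Z] [RegularSpace Z] (f : K → Z),
    SeqContinuous f → Continuous f

/-! ### The group part -/

section Grp

variable {H : Type} [CommGroup H] {K : Type}

/-- products of `n` elements `i x` -/
def Hn (i : K → H) (n : ℕ) : Set H := range fun x : Fin n → K => ∏ j, i (x j)

/-- The topology on `H` which is the direct limit of the sets `Hn i n` with the topology of `τ₀`. -/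
@[reducible] def kTop (τ₀ : TopologicalSpace H) (i : K → H) : TopologicalSpace H :=
  ⨆ n, TopologicalSpace.coinduced (Subtype.val : Hn i n → H)
    (TopologicalSpace.induced Subtype.val τ₀)

end Grp

end P8e9337
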