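import Pool.Agent.Lib.WkD.Notions

/-!
# Jensen's diamond principle inside a structure `(M, E)`
-/

set_option autoImplicit false

namespace P8e9337

open Pool.Agent.Lib.BVM

universe u

variable {M : Type u} (E : M → M → Prop)

/-- `o` is the first uncountable ordinal of the structure: an ordinal containing the set `w` of the
natural numbers which is not the range of a function defined on `w`, while every nonempty element
of `o` is the range of such a function. -/
def IsOmegaOne (o : M) : Prop :=
  Pool.Agent.Lib.WkD.IsOrd E o ∧ ∃ w, IsOmega E w ∧ E w o ∧ (∀ f, ¬ IsSurj E f w o) ∧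
    ∀ a, E a o → (∃ x, E x a) → ∃ f, IsSurj E f w a

/-- Jensen's principle for the first uncountable ordinal of the structure. -/
def DiamondIn : Prop := ∃ o, IsOmegaOne E o ∧ Pool.Agent.Lib.WkD.Diamond E o

end P8e9337
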