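import Pool.Agent.Lib.P8e9337.DiaP
import Pool.Agent.Lib.P8e9337.DiaDefs
import Pool.Agent.Lib.WkD.MOmega
import Pool.Agent.Lib.WkD.MClub

/-!
# A model of ZFC with diamond
-/

set_option autoImplicit false

open Set

namespace Pool.Agent.Lib.P8e9337.Dia

open Pool.Agent.Lib.WkD Pool.Agent.Lib.BSM Pool.Agent.Lib.BVM Pool.Agent.Lib.BVM.bSet

section general

variable {B : Type} [CompleteBooleanAlgebra B] {ι : Type} {c d : ι → bSet B}

/-- name of the function on the set of all `c i` with value `d i` at `c i` -/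
def funN (c d : ι → bSet B) : bSet B := graphName c d (fun _ => ⊤)

theorem of_mem_funN {Z : bSet B} {P Q : Ultra B → Prop} (hP : BV P) (hQ : BV Q)
    (h : ∀ i U, q U Z = q U (bpair (c i) (d i)) → Q U → P U) {U : Ultra B}
    (h1 : E U (q U Z) (q U (funN c d))) (h2 : Q U) : P U :=
  of_mem (X := funN c d) hP hQ (fun i U _ hZ hQ => h i U hZ hQ) h1 h2

theorem app_funN_self (i : ι) (U : Ultra B) : App (E U) (q U (funN c d)) (q U (c i)) (q U (d i)) := by
  rw [app_iff]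
  exact E_func (X := funN c d) i (Ultra.top (U := U))

theorem app_funN (hc : ∀ i j, i ≠ j → beq (c i) (c j) = ⊥) {U : Ultra B} {i : ι} {Y : bSet B}
    (h : App (E U) (q U (funN c d)) (q U (c i)) (q U Y)) : q U Y = q U (d i) := by
  rw [app_iff] at h
  refine of_mem_funN (P := fun U => q U Y = q U (d i)) (Q := fun _ => True) (BV.eq _ _)
    (BV.const _) (fun j U hZ _ => ?_) h trivial
  obtain ⟨h3, h4⟩ := bpair_inj.1 hZ
  rw [h4]
  by_cases hij : i = j
  · rw [hij]
  · exfalso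
    have h5 := q_eq.1 h3
    rw [hc i j hij] at h5
    exact Ultra.bot h5

theorem isFunOn_funN (hc : ∀ i j, i ≠ j → beq (c i) (c j) = ⊥) (U : Ultra B) :
    IsFunOn (E U) (q U (funN c d)) (q U (domN c)) := by
  refine ⟨?_, ?_⟩
  · intro p hp
    obtain ⟨Z, rfl⟩ := q_surj p
    refine of_mem_funN (P := fun U => ∃ x y', E U x (q U (domN c)) ∧ IsPair (E U) x y' (q U Z))
      (Q := fun _ => True)
      (BV.ex fun x => BV.ex fun y' => (BV.mem _ _).and (BV.isPair x y' Z)) (BV.const True)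
      (fun i U hZ _ => ?_) hp trivial
    exact ⟨q U (c i), q U (d i), E_domN c i U, isPair_iff.2 hZ⟩
  · intro a ha
    obtain ⟨A, rfl⟩ := q_surj a
    refine of_mem_domN (P := fun U => ∃! y', App (E U) (q U (funN c d)) (q U A) y')
      (Q := fun _ => True)
      (BV.exUnique fun y' => BV.app _ A y') (BV.const _)
      (fun i U hA _ => ?_) ha trivial
    rw [hA]
    refine ⟨q U (d i), app_funN_self i U, fun y' hy' => ?_⟩
    obtain ⟨Y, rfl⟩ := q_surj y'
    exact app_funN hc hy'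

end general

/-- name of the set with index `α` -/
noncomputable def TT (α : W) : bSet BD := subN (fun ξ : Iio α => ck BD ξ.1) (fun ξ => SS α ξ.1)

/-- name of the diamond sequence -/
noncomputable def S0 : bSet BD := funN (fun α : W => ck BD α) TT

theorem hck (i j : W) (h : i ≠ j) : beq (ck BD i) (ck BD j) = ⊥ := beq_ck_ne h

theorem diamond (U : Ultra BD) : Diamond (E U) (q U (lamN BD W)) := by
  refine ⟨q U S0, isFunOn_funN hck U, ?_, ?_⟩
  · intro a s has x hx
    obtain ⟨A, rfl⟩ := q_surj a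
    obtain ⟨Y, rfl⟩ := q_surj s
    obtain ⟨X, rfl⟩ := q_surj x
    rw [app_iff] at has
    refine of_mem_funN (P := fun U => E U (q U X) (q U A)) (Q := fun U => E U (q U X) (q U Y))
      (BV.mem _ _) (BV.mem _ _) (fun α U hZ hQ => ?_) has hx
    obtain ⟨h3, h4⟩ := bpair_inj.1 hZ
    rw [h4] at hQ
    rw [h3]
    refine of_mem_subN (P := fun U => E U (q U X) (q U (ck BD α))) (Q := fun _ => True)
      (BV.mem _ _) (BV.const _) (fun ξ U _ hX _ => ?_) hQ trivial
    rw [hX]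
    exact E_ck.2 ξ.2
  · intro X hX C hC
    obtain ⟨X0, rfl⟩ := q_surj X
    obtain ⟨C0, rfl⟩ := q_surj C
    have h1 := Ultra.mono (bclub_mem C0 hC) (bdia (fun ξ : W => bmem (ck BD ξ) X0) _)
    have hBV : BV (fun U : Ultra BD => ∃ a s, E U a (q U C0) ∧ App (E U) (q U S0) a s ∧
        ∀ x, E U x s ↔ (E U x (q U X0) ∧ E U x a)) :=
      BV.ex fun a => BV.ex fun s => (BV.mem _ _).and ((BV.app _ _ _).and
        (BV.all fun x => (BV.mem _ _).biimp ((BV.mem _ _).and (BV.mem _ _))))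
    refine of_iSup (Q := fun _ => True) hBV (BV.const _) (fun α U hα _ => ?_) h1 trivial
    obtain ⟨h2, h3⟩ := Ultra.inf_iff.1 hα
    refine ⟨q U (ck BD α), q U (TT α), h2, app_funN_self α U, fun z => ?_⟩
    obtain ⟨Z, rfl⟩ := q_surj z
    have hbi : ∀ (U : Ultra BD) (ξ : W), ξ < α →
        (⨅ ξ : W, ⨅ _ : ξ < α, bi (bmem (ck BD ξ) X0) (SS α ξ)) ∈ U →
        (bmem (ck BD ξ) X0 ∈ U ↔ SS α ξ ∈ U) := by
      intro U ξ hξ hU
      obtain ⟨h4, h5⟩ := Ultra.inf_iff.1 (Ultra.mono hU ((iInf_le _ ξ).trans (iInf_le _ hξ)))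
      exact ⟨Ultra.himp_iff.1 h4, Ultra.himp_iff.1 h5⟩
    constructor
    · intro hz
      refine of_mem_subN (P := fun U => E U (q U Z) (q U X0) ∧ E U (q U Z) (q U (ck BD α)))
        (Q := fun U => (⨅ ξ : W, ⨅ _ : ξ < α, bi (bmem (ck BD ξ) X0) (SS α ξ)) ∈ U)
        ((BV.mem _ _).and (BV.mem _ _)) (BV.of_mem _) (fun ξ U hξ hZ hQ => ?_) hz h3
      rw [hZ]
      exact ⟨(hbi U ξ.1 ξ.2 hQ).2 hξ, E_ck.2 ξ.2⟩
    · rintro ⟨hz1, hz2⟩
      refine of_mem_ck (P := fun U => E U (q U Z) (q U (TT α)))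
        (Q := fun U => E U (q U Z) (q U X0) ∧
          (⨅ ξ : W, ⨅ _ : ξ < α, bi (bmem (ck BD ξ) X0) (SS α ξ)) ∈ U)
        (BV.mem _ _) ((BV.mem _ _).and (BV.of_mem _)) (fun ξ hξ U hZ hQ => ?_) hz2 ⟨hz1, h3⟩
      obtain ⟨hQ1, hQ2⟩ := hQ
      rw [hZ] at hQ1 ⊢
      exact E_func (X := TT α) (⟨ξ, hξ⟩ : Iio α) ((hbi U ξ hξ hQ2).1 hQ1)

theorem no_surj (U : Ultra BD) (f : Mod U) : ¬ IsSurj (E U) f (q U omega) (q U (lamN BD W)) := by
  intro hf
  obtain ⟨F, rfl⟩ := q_surj f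
  have hBV : BV (fun U : Ultra BD => IsSurj (E U) (q U F) (q U omega) (q U (lamN BD W))) :=
    BV.isSurj _ _ _
  set v := bv (fun U : Ultra BD => IsSurj (E U) (q U F) (q U omega) (q U (lamN BD W))) with hv
  have hvU : v ∈ U := (hBV.iff U).1 hf
  have hv0 : v ≠ ⊥ := fun h => Ultra.bot (h ▸ hvU)
  obtain ⟨p, hp⟩ := exists_em hv0
  have happ : ∀ (n : ℕ) (γ : W),
      BV (fun U : Ultra BD => App (E U) (q U F) (q U (num n)) (q U (ck BD γ))) :=
    fun n γ => BV.app _ _ _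
  obtain ⟨r, hr, hR⟩ := fuse (fun n q' => (∃ γ : W, em q' ≤
      bv (fun U : Ultra BD => App (E U) (q U F) (q U (num n)) (q U (ck BD γ)))) ∨ em q' ≤ vᶜ)
    (fun n q' => by
      obtain ⟨s, hs, h | h⟩ := exists_decide q' v
      · have h1 : em s ≤ ⨆ γ : W,
            bv (fun U : Ultra BD => App (E U) (q U F) (q U (num n)) (q U (ck BD γ))) := by
          refine Ultra.le_of_forall fun V hV => ?_
          have h2 : IsSurj (E V) (q V F) (q V omega) (q V (lamN BD W)) :=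
            (hBV.iff V).2 (Ultra.mono hV h)
          obtain ⟨y, hy, -⟩ := h2.1.1.2 _ (E_num_omega V n)
          have hy2 := h2.1.2 _ _ hy
          obtain ⟨Y, rfl⟩ := q_surj y
          refine of_mem_lamN (K := W) (P := fun U => (⨆ γ : W,
            bv (fun U : Ultra BD => App (E U) (q U F) (q U (num n)) (q U (ck BD γ)))) ∈ U)
            (Q := fun U => App (E U) (q U F) (q U (num n)) (q U Y)) (BV.of_mem _) (BV.app _ _ _)
            (fun γ U hY hQ => ?_) hy2 hy
          rw [hY] at hQ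
          exact Ultra.mono (((happ n γ).iff U).1 hQ) (le_iSup (fun γ : W =>
            bv (fun U : Ultra BD => App (E U) (q U F) (q U (num n)) (q U (ck BD γ)))) γ)
        obtain ⟨t, ht, γ, h3⟩ := exists_em_iSup h1
        exact ⟨t, ht.trans hs, Or.inl ⟨γ, h3⟩⟩
      · exact ⟨s, hs, Or.inr h⟩)
    (fun n q' q'' hq h => h.imp (fun ⟨γ, h⟩ => ⟨γ, (em_mono hq).trans h⟩)
      (fun h => (em_mono hq).trans h)) p
  have hrv : em r ≤ v := (em_mono hr).trans hp
  have hR' : ∀ n, ∃ γ : W, em r ≤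
      bv (fun U : Ultra BD => App (E U) (q U F) (q U (num n)) (q U (ck BD γ))) := fun n =>
    (hR n).resolve_right fun h => not_em_compl hrv h
  choose γ hγ using hR'
  obtain ⟨δ, hδ⟩ := exists_gt (range γ) (countable_range γ)
  obtain ⟨V, hV⟩ := Ultra.exists_mem (em_ne_bot r)
  have h2 : IsSurj (E V) (q V F) (q V omega) (q V (lamN BD W)) :=
    (hBV.iff V).2 (Ultra.mono hV hrv)
  obtain ⟨x, hx, hxδ⟩ := h2.2 _ (E_lamN δ V)
  obtain ⟨X, rfl⟩ := q_surj x
  refine of_mem_omega (Z := X) (P := fun _ => False)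
    (Q := fun U => App (E U) (q U F) (q U X) (q U (ck BD δ)) ∧ em r ∈ U)
    (BV.const False) ((BV.app _ _ _).and (BV.of_mem _)) (fun n U hX hQ => ?_) hx ⟨hxδ, hV⟩
  obtain ⟨hQ1, hQ2⟩ := hQ
  rw [hX] at hQ1
  have h3 : IsSurj (E U) (q U F) (q U omega) (q U (lamN BD W)) :=
    (hBV.iff U).2 (Ultra.mono hQ2 hrv)
  have h4 := ((happ n (γ n)).iff U).2 (Ultra.mono hQ2 (hγ n))
  have h5 : δ = γ n := ck_inj (app_unique h3.1.1 (E_num_omega U n) hQ1 h4)
  exact absurd (hδ _ (mem_range_self n)) (by rw [h5]; exact lt_irrefl _)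

theorem omega_eq : (omega : bSet BD) = domN num := rfl

theorem exists_surj (U : Ultra BD) (a : Mod U) (ha : E U a (q U (lamN BD W)))
    (hne : ∃ x, E U x a) : ∃ f, IsSurj (E U) f (q U omega) a := by
  obtain ⟨A, rfl⟩ := q_surj a
  refine of_mem_lamN (K := W) (P := fun U => ∃ f, IsSurj (E U) f (q U omega) (q U A))
    (Q := fun U => ∃ x, E U x (q U A)) (BV.ex fun f => BV.isSurj _ _ _)
    (BV.ex fun x => BV.mem _ _) (fun α U hA hQ => ?_) ha hne
  rw [hA] at hQ ⊢
  have hα : (Iio α).Nonempty := by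
    obtain ⟨x, hx⟩ := hQ
    obtain ⟨X, rfl⟩ := q_surj x
    exact of_mem_ck (Z := X) (a := α) (P := fun _ => (Iio α).Nonempty) (Q := fun _ => True)
      (BV.const _) (BV.const _) (fun ξ hξ U _ _ => ⟨ξ, hξ⟩) hx trivial
  obtain ⟨g, hg⟩ := (countable_Iio α).exists_eq_range hα
  have hgα : ∀ n, g n < α := fun n => by
    have : g n ∈ Iio α := hg ▸ mem_range_self n
    exact this
  refine ⟨q U (funN num (fun n => ck BD (g n))), ⟨?_, ?_⟩, ?_⟩
  · rw [omega_eq]
    exact isFunOn_funN (fun i j h => beq_num_ne h) U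
  · intro x y hxy
    obtain ⟨X, rfl⟩ := q_surj x
    obtain ⟨Y, rfl⟩ := q_surj y
    rw [app_iff] at hxy
    refine of_mem_funN (P := fun U => E U (q U Y) (q U (ck BD α))) (Q := fun _ => True)
      (BV.mem _ _) (BV.const _) (fun n U hZ _ => ?_) hxy trivial
    rw [(bpair_inj.1 hZ).2]
    exact E_ck.2 (hgα n)
  · intro y hy
    obtain ⟨Y, rfl⟩ := q_surj y
    refine of_mem_ck (P := fun U => ∃ x, E U x (q U omega) ∧
        App (E U) (q U (funN num (fun n => ck BD (g n)))) x (q U Y)) (Q := fun _ => True)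
      (BV.ex fun x => (BV.mem _ _).and (BV.app _ _ _)) (BV.const _)
      (fun ξ hξ U hY _ => ?_) hy trivial
    have h1 : ξ ∈ range g := hg ▸ (show ξ ∈ Iio α from hξ)
    obtain ⟨n, hn⟩ := h1
    refine ⟨q U (num n), E_num_omega U n, ?_⟩
    rw [hY, ← hn]
    exact app_funN_self (c := num) (d := fun n => ck BD (g n)) n U

theorem exists_infinite : ∃ a : W, (Iio a).Infinite := by
  by_contra hcon
  push Not at hcon
  have hf : ∀ b : W, (Iio b).Finite := fun b => hcon b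
  have hmono : StrictMono (fun b : W => (Iio b).ncard) := by
    intro a b hab
    apply ncard_lt_ncard _ (hf b)
    rw [ssubset_iff_of_subset (Iio_subset_Iio hab.le)]
    exact ⟨a, hab, lt_irrefl a⟩
  have : Countable W := hmono.injective.countable
  exact not_countable_W countable_univ

theorem isOmegaOne (U : Ultra BD) : _root_.P8e9337.IsOmegaOne (E U) (q U (lamN BD W)) := by
  obtain ⟨a, ha⟩ := isOmega_ck (B := BD) exists_infinite
  have h1 : q U (ck BD a) = q U omega := eq_omega (ha U)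
  refine ⟨isOrd_lamN U, q U omega, isOmega_omega U, ?_, no_surj U, exists_surj U⟩
  rw [← h1]
  exact E_lamN a U

theorem exists_model :
    ∃ (M : Type 1) (E : M → M → Prop), ModelZFC M E ∧ _root_.P8e9337.DiamondIn E := by
  have : Nonempty W := by
    obtain ⟨a, -⟩ := exists_infinite
    exact ⟨a⟩
  obtain ⟨w⟩ := this
  have htop : (⊤ : BD) ≠ ⊥ := by
    intro h
    exact em_ne_bot (⟨w, fun _ => ∅⟩ : Cn) (le_bot_iff.1 (h ▸ le_top))
  obtain ⟨U, _⟩ := Ultra.exists_mem (b := (⊤ : BD)) htop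
  exact ⟨Mod U, E U, modelZFC U, q U (lamN BD W), isOmegaOne U, diamond U⟩

end Pool.Agent.Lib.P8e9337.Dia
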