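import Pool.Agent.Lib.WkD.RO
import Pool.Agent.Lib.WkD.BDefs
import Pool.Agent.Lib.BSM.Nice

/-!
# The forcing which adds a diamond sequence

`Cn`: the sequences of subsets of the initial segments of `W` (the well-order of type `ω₁`) of
countable length. Boolean valued form of diamond.
-/

set_option autoImplicit false

open Set

namespace Pool.Agent.Lib.P8e9337.Dia

open Pool.Agent.Lib.WkD Pool.Agent.Lib.BSM

/-- conditions: sequences of length `len` of sets, the set `A b` is used for `b < len` and only its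
elements below `b` count -/
structure Cn : Type where
  len : W
  A : W → Set W

instance : Preorder Cn where
  le q p := p.len ≤ q.len ∧ ∀ b < p.len, ∀ x < b, (x ∈ q.A b ↔ x ∈ p.A b)
  le_refl p := ⟨le_rfl, fun _ _ _ _ => Iff.rfl⟩
  le_trans r q p h h' := ⟨h'.1.trans h.1,
    fun b hb x hx => (h.2 b (hb.trans_le h'.1) x hx).trans (h'.2 b hb x hx)⟩

theorem le_iff {p q : Cn} : q ≤ p ↔
    p.len ≤ q.len ∧ ∀ b < p.len, ∀ x < b, (x ∈ q.A b ↔ x ∈ p.A b) := Iff.rfl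

theorem exists_gt1 (a : W) : ∃ b, a < b := by
  obtain ⟨b, hb⟩ := exists_gt {a} (countable_singleton a)
  exact ⟨b, hb a rfl⟩

theorem anti {c : ℕ → Cn} (hc : ∀ n, c (n + 1) ≤ c n) {m n : ℕ} (h : m ≤ n) : c n ≤ c m := by
  induction n, h using Nat.le_induction with
  | base => exact le_rfl
  | succ k _ ih => exact (hc k).trans ih

open Classical in
/-- Limits of decreasing sequences. -/
theorem lim (c : ℕ → Cn) (hc : ∀ n, c (n + 1) ≤ c n) (α : W) (hα : ∀ n, (c n).len ≤ α)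
    (Y : Set W) :
    ∃ r : Cn, (∀ n, r ≤ c n) ∧ α < r.len ∧ ∀ x < α, (x ∈ r.A α ↔ x ∈ Y) := by
  obtain ⟨l, hl⟩ := exists_gt1 α
  refine ⟨⟨l, fun b => if b < α then {x | ∃ n, b < (c n).len ∧ x ∈ (c n).A b} else Y⟩,
    fun n => ?_, hl, fun x _ => ?_⟩
  · refine ⟨(hα n).trans hl.le, fun b hb x hx => ?_⟩
    have hb' : b < α := hb.trans_le (hα n)
    show x ∈ (if b < α then {x | ∃ n, b < (c n).len ∧ x ∈ (c n).A b} else Y) ↔ _
    rw [if_pos hb']
    constructor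
    · rintro ⟨m, hm, hxm⟩
      rcases le_total m n with h | h
      · exact ((anti hc h).2 b hm x hx).2 hxm
      · exact ((anti hc h).2 b hb x hx).1 hxm
    · intro h
      exact ⟨n, hb, h⟩
  · show x ∈ (if α < α then {x | ∃ n, α < (c n).len ∧ x ∈ (c n).A α} else Y) ↔ _
    rw [if_neg (lt_irrefl α)]

theorem closed (c : ℕ → Cn) (hc : ∀ n, c (n + 1) ≤ c n) : ∃ r : Cn, ∀ n, r ≤ c n := by
  obtain ⟨α, hα⟩ := exists_gt (range fun n => (c n).len) (countable_range _)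
  obtain ⟨r, hr, -⟩ := lim c hc α (fun n => (hα _ (mem_range_self n)).le) ∅
  exact ⟨r, hr⟩

theorem exists_longer (p : Cn) (a : W) : ∃ q ≤ p, a < q.len := by
  obtain ⟨l, hl⟩ := exists_gt1 (max a p.len)
  exact ⟨⟨l, p.A⟩, ⟨(le_max_right _ _).trans hl.le, fun _ _ _ _ => Iff.rfl⟩,
    (le_max_left _ _).trans_lt hl⟩

/-- A fusion of countably many extension steps. -/
theorem fuse (R : ℕ → Cn → Prop) (hR : ∀ n p, ∃ q ≤ p, R n q)
    (hmono : ∀ n p q, q ≤ p → R n p → R n q) (p : Cn) : ∃ q ≤ p, ∀ n, R n q := by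
  choose F hF1 hF2 using hR
  let c : ℕ → Cn := fun n => Nat.rec p (fun n q => F n q) n
  have hc : ∀ n, c (n + 1) ≤ c n := fun n => hF1 n (c n)
  obtain ⟨r, hr⟩ := closed c hc
  exact ⟨r, hr 0, fun n => hmono n _ _ (hr (n + 1)) (hF2 n (c n))⟩

/-- the Boolean algebra of the forcing -/
abbrev BD : Type := ROP Cn

theorem decide_countable {ι : Type} {s : Set ι} (hs : s.Countable) (t : ι → BD) (p : Cn) :
    ∃ q ≤ p, ∀ i ∈ s, em q ≤ t i ∨ em q ≤ (t i)ᶜ := by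
  rcases s.eq_empty_or_nonempty with rfl | hne
  · exact ⟨p, le_rfl, fun i hi => absurd hi (notMem_empty i)⟩
  · obtain ⟨f, hf⟩ := hs.exists_eq_range hne
    obtain ⟨q, hq, h⟩ := fuse (fun n q => em q ≤ t (f n) ∨ em q ≤ (t (f n))ᶜ)
      (fun n p => exists_decide p (t (f n)))
      (fun n p q hqp h => h.imp (fun h => (em_mono hqp).trans h) (fun h => (em_mono hqp).trans h)) p
    refine ⟨q, hq, fun i hi => ?_⟩
    rw [hf] at hi
    obtain ⟨n, rfl⟩ := hi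
    exact h n

/-- Boolean value of: `ξ` is in the set with index `α` -/
noncomputable def SS (α ξ : W) : BD := sSup (em '' {p : Cn | α < p.len ∧ ξ ∈ p.A α})

theorem em_le_SS {p : Cn} {α ξ : W} (h : α < p.len) (h' : ξ ∈ p.A α) : em p ≤ SS α ξ :=
  le_sSup ⟨p, ⟨h, h'⟩, rfl⟩

theorem em_le_SS_compl {p : Cn} {α ξ : W} (h : α < p.len) (hξ : ξ < α) (h' : ξ ∉ p.A α) :
    em p ≤ (SS α ξ)ᶜ := by
  rw [em_le_compl_iff]
  intro q hq hs
  unfold SS at hs
  rw [sSup_image'] at hs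
  obtain ⟨s, hsq, ⟨x, hx⟩, hsx⟩ := exists_em_iSup hs
  have h1 : em s ⊓ em x ≠ ⊥ := by
    rw [inf_eq_left.2 hsx]
    exact em_ne_bot _
  obtain ⟨z, hz1, hz2⟩ := compat_of h1
  have e1 : ξ ∈ z.A α := (hz2.2 α hx.1 ξ hξ).2 hx.2
  have e2 : z ≤ p := hz1.trans (hsq.trans hq)
  exact h' ((e2.2 α h ξ hξ).1 e1)

/-- Boolean valued diamond. -/
theorem bdia (x X : W → BD) :
    BClub X ≤ ⨆ α : W, X α ⊓ ⨅ ξ : W, ⨅ _ : ξ < α, bi (x ξ) (SS α ξ) := by
  apply le_of_em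
  intro p hp
  -- one step
  have hstep : ∀ q : Cn, ∃ q' ≤ q, ∃ β : W, em q ≤ BClub X →
      (q.len < β ∧ β < q'.len ∧ em q' ≤ X β ∧ ∀ ξ < q.len, em q' ≤ x ξ ∨ em q' ≤ (x ξ)ᶜ) := by
    intro q
    by_cases hq : em q ≤ BClub X
    · have h1 : em q ≤ ⨆ η : W, ⨆ _ : q.len < η, X η :=
        hq.trans (inf_le_left.trans (iInf_le _ q.len))
      obtain ⟨q1, hq1, β, h2⟩ := exists_em_iSup h1
      obtain ⟨q2, hq2, hβ, h3⟩ := exists_em_iSup h2
      obtain ⟨q3, hq3, h4⟩ := exists_longer q2 β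
      obtain ⟨q4, hq4, h5⟩ := decide_countable (countable_Iio q.len) x q3
      exact ⟨q4, hq4.trans (hq3.trans (hq2.trans hq1)), β, fun _ => ⟨hβ, h4.trans_le hq4.1,
        (em_mono (hq4.trans hq3)).trans h3, fun ξ hξ => h5 ξ hξ⟩⟩
    · exact ⟨q, le_rfl, q.len, fun h => absurd h hq⟩
  choose F hF β hβ using hstep
  let c : ℕ → Cn := fun n => Nat.rec p (fun _ q => F q) n
  have hc : ∀ n, c (n + 1) ≤ c n := fun n => hF (c n)
  have hcp : ∀ n, em (c n) ≤ BClub X := fun n => (em_mono (anti hc (Nat.zero_le n))).trans hp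
  have hs : ∀ n, (c n).len < β (c n) ∧ β (c n) < (c (n + 1)).len ∧ em (c (n + 1)) ≤ X (β (c n)) ∧
      ∀ ξ < (c n).len, em (c (n + 1)) ≤ x ξ ∨ em (c (n + 1)) ≤ (x ξ)ᶜ := fun n => hβ (c n) (hcp n)
  -- the limit
  obtain ⟨α, hα, hmin⟩ : ∃ α : W, (∀ n, (c n).len ≤ α) ∧ ∀ ξ < α, ∃ n, ξ < (c n).len := by
    obtain ⟨u, hu⟩ := exists_gt (range fun n => (c n).len) (countable_range _)
    have hne : {α : W | ∀ n, (c n).len ≤ α}.Nonempty := ⟨u, fun n => (hu _ (mem_range_self n)).le⟩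
    refine ⟨(wellFounded_lt (α := W)).min _ hne, (wellFounded_lt (α := W)).min_mem _ hne,
      fun ξ hξ => ?_⟩
    by_contra hcon
    push Not at hcon
    exact (wellFounded_lt (α := W)).not_lt_min _ (show ξ ∈ {α : W | ∀ n, (c n).len ≤ α} from hcon) hξ
  obtain ⟨r, hr, hrα, hrY⟩ := lim c hc α hα {ξ | ∃ n, em (c n) ≤ x ξ}
  refine ⟨r, (hr 0), le_trans ?_ (le_iSup _ α)⟩
  refine le_inf ?_ (le_iInf fun ξ => le_iInf fun hξ => ?_)
  · have h1 : em r ≤ BClub X := (em_mono (hr 0)).trans hp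
    have hex : ∃ ξ, ξ < α := ⟨(c 0).len, ((hs 0).1.trans (hs 0).2.1).trans_le (hα 1)⟩
    have h2 := h1.trans (inf_le_right.trans ((iInf_le _ α).trans (iInf_le _ hex)))
    have h3 : em r ≤ ⨅ ξ : W, ⨅ _ : ξ < α, ⨆ η : W, ⨆ _ : ξ < η ∧ η < α, X η := by
      refine le_iInf fun ξ => le_iInf fun hξ => ?_
      obtain ⟨n, hn⟩ := hmin ξ hξ
      exact le_iSup_of_le (β (c n)) (le_iSup_of_le ⟨hn.trans (hs n).1,
        (hs n).2.1.trans_le (hα (n + 1))⟩ ((em_mono (hr (n + 1))).trans (hs n).2.2.1))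
    exact (le_inf le_rfl h3).trans (le_himp_iff.1 h2)
  · obtain ⟨n, hn⟩ := hmin ξ hξ
    unfold bi
    rcases (hs n).2.2.2 ξ hn with h | h
    · have h1 : em r ≤ x ξ := (em_mono (hr (n + 1))).trans h
      have h2 : em r ≤ SS α ξ := em_le_SS hrα ((hrY ξ hξ).2 ⟨n + 1, h⟩)
      exact le_inf (h2.trans le_himp) (h1.trans le_himp)
    · have h1 : em r ≤ (x ξ)ᶜ := (em_mono (hr (n + 1))).trans h
      have h2 : em r ≤ (SS α ξ)ᶜ := by
        refine em_le_SS_compl hrα hξ fun h3 => ?_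
        obtain ⟨m, hm⟩ := (hrY ξ hξ).1 h3
        exact not_em_compl ((em_mono (hr m)).trans hm) h1
      refine le_inf ?_ ?_
      · rw [le_himp_iff]
        exact (inf_le_inf_right _ h1).trans ((compl_inf_self (x ξ)).le.trans bot_le)
      · rw [le_himp_iff]
        exact (inf_le_inf_right _ h2).trans ((compl_inf_self (SS α ξ)).le.trans bot_le)

end Pool.Agent.Lib.P8e9337.Dia
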