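import Pool.Agent.Lib.P8e9337.Space
import Pool.Agent.Lib.P8e9337.Defs

set_option autoImplicit false
set_option linter.unusedSectionVars false
open Set Filter Topology

namespace Pool.Agent.P8e9337

section order
variable {W : Type} [LinearOrder W] [WellFoundedLT W]
  (hW : ∀ α : W, (Iio α).Countable) (hWu : ¬ (univ : Set W).Countable)
include hW hWu

theorem Iic_countable (α : W) : (Iic α).Countable := by
  have : Iic α = insert α (Iio α) := by
    ext x; simp [le_iff_eq_or_lt]
  rw [this]; exact (hW α).insert α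

theorem countable_bdd {S : Set W} (hS : S.Countable) : ∃ b, ∀ s ∈ S, s < b := by
  by_contra hcon
  push Not at hcon
  apply hWu
  refine ((hS.biUnion (t := fun s _ => Iic s) (fun s _ => Iic_countable hW hWu s))).mono ?_
  intro b _
  obtain ⟨s, hs, hb⟩ := hcon b
  exact mem_biUnion hs hb

theorem exists_gt' (b : W) : ∃ c, b < c := by
  obtain ⟨c, hc⟩ := countable_bdd hW hWu (countable_singleton b)
  exact ⟨c, hc b rfl⟩

theorem uncountable_unbdd {S : Set W} (hS : ¬ S.Countable) (b : W) : ∃ s ∈ S, b < s := by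
  by_contra hcon
  push Not at hcon
  exact hS ((Iic_countable hW hWu b).mono hcon)

theorem exists_big : ∃ b : W, (Iio b).Infinite := by
  by_contra hcon
  push Not at hcon
  have hf : ∀ b : W, (Iio b).Finite := fun b => hcon b
  have hmono : StrictMono (fun b : W => (Iio b).ncard) := by
    intro a b hab
    apply ncard_lt_ncard _ (hf b)
    rw [ssubset_iff_of_subset (Iio_subset_Iio hab.le)]
    exact ⟨a, hab, lt_irrefl a⟩
  have : Countable W := hmono.injective.countable
  exact hWu (countable_univ)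

theorem isClub_Ioi (b : W) : IsClub (Ioi b) := by
  refine ⟨?_, ?_⟩
  · intro d hd hne _ a ha
    obtain ⟨x, hx⟩ := hne
    exact lt_of_lt_of_le (hd hx) (ha.1 hx)
  · intro x
    obtain ⟨c, hc⟩ := exists_gt' hW hWu (max b x)
    exact ⟨c, (le_max_left _ _).trans_lt hc, ((le_max_right _ _).trans_lt hc).le⟩

theorem isClub_lim {S : Set W} (hS : ¬ S.Countable) (b : W) :
    IsClub {α | b < α ∧ ∀ β < α, ∃ γ ∈ S, β < γ ∧ γ < α} := by
  refine ⟨?_, ?_⟩
  · intro d hd hne _ a ha
    obtain ⟨x, hx⟩ := hne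
    refine ⟨lt_of_lt_of_le (hd hx).1 (ha.1 hx), ?_⟩
    intro β hβ
    obtain ⟨y, hy, hβy⟩ : ∃ y ∈ d, β < y := by
      by_contra hcon
      push Not at hcon
      exact absurd (ha.2 hcon) (not_le.2 hβ)
    obtain ⟨γ, hγ, h1, h2⟩ := (hd hy).2 β hβy
    exact ⟨γ, hγ, h1, h2.trans_le (ha.1 hy)⟩
  · intro x
    choose nx hnx1 hnx2 using uncountable_unbdd hW hWu hS
    let g : ℕ → W := fun n => Nat.rec (nx (max b x)) (fun _ y => nx y) n
    have hg : ∀ n, g (n + 1) = nx (g n) := fun n => rfl
    have hgS : ∀ n, g n ∈ S := by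
      intro n
      cases n with
      | zero => exact hnx1 _
      | succ n => rw [hg]; exact hnx1 _
    have hglt : ∀ n, g n < g (n + 1) := fun n => by rw [hg]; exact hnx2 _
    have hg0 : max b x < g 0 := hnx2 _
    obtain ⟨u, hu⟩ := countable_bdd hW hWu (countable_range g)
    obtain ⟨a, ha, hmin⟩ := WellFounded.has_min (wellFounded_lt (α := W))
      {u | ∀ s ∈ range g, s < u} ⟨u, hu⟩
    have ha' : ∀ n, g n < a := fun n => ha _ (mem_range_self n)
    refine ⟨a, ⟨?_, ?_⟩, ?_⟩
    · exact (le_max_left _ _).trans_lt (hg0.trans (ha' 0))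
    · intro β hβ
      have h1 : ¬ ∀ s ∈ range g, s < β := fun h => hmin β h hβ
      push Not at h1
      obtain ⟨_, ⟨n, rfl⟩, h2⟩ := h1
      exact ⟨g (n + 1), hgS (n + 1), h2.trans_lt (hglt n), ha' (n + 1)⟩
    · exact ((le_max_right _ _).trans_lt (hg0.trans (ha' 0))).le

end order

section main
variable {W : Type} [LinearOrder W] [WellFoundedLT W]
  (hW : ∀ α : W, (Iio α).Countable) (hWu : ¬ (univ : Set W).Countable)
include hW hWu

theorem main_good (A : W → Set W) (hA : ∀ X : Set W, IsStationary {a | X ∩ Iio a = A a}) :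
    ∃ (K : Type) (_ : TopologicalSpace K) (p : K) (X : Set K), _root_.P8e9337.GoodK K p X := by
  classical
  obtain ⟨e, he⟩ : ∃ e : ℕ → W, Function.Injective e := by
    have : Infinite W := by
      rw [← Set.infinite_univ_iff]
      exact fun h => hWu h.countable
    exact ⟨Infinite.natEmbedding W, (Infinite.natEmbedding W).injective⟩
  obtain ⟨b₀, hb₀⟩ := exists_big hW hWu
  let U : W → Set ℕ := fun α => {n | e n ∈ A α}
  let R : W → Set W := fun α => A α ∩ Iio α
  have bigOf : ∀ α, b₀ < α → (Iio α).Infinite := fun α h => hb₀.mono (Iio_subset_Iio h.le)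
  have D1 : ∀ (U₀ : Set ℕ), ∃ α, (Iio α).Infinite ∧ U α = U₀ := by
    intro U₀
    obtain ⟨b, hb⟩ := countable_bdd hW hWu (countable_range e)
    obtain ⟨α, hα, hα'⟩ := hA (e '' U₀) (isClub_Ioi hW hWu (max b b₀))
    refine ⟨α, bigOf α ((le_max_right _ _).trans_lt hα'), ?_⟩
    ext n
    have hα : e '' U₀ ∩ Iio α = A α := hα
    simp only [U, mem_ofPred_eq]
    rw [← hα]
    constructor
    · rintro ⟨⟨m, hm, h⟩, -⟩
      rwa [← he h]
    · intro hn
      exact ⟨⟨n, hn, rfl⟩, (hb _ (mem_range_self n)).trans ((le_max_left _ _).trans_lt hα')⟩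
  have D2 : ∀ (S : Set W), S.Countable → ∃ α, (Iio α).Infinite ∧ R α = S := by
    intro S hS
    obtain ⟨b, hb⟩ := countable_bdd hW hWu hS
    obtain ⟨α, hα, hα'⟩ := hA S (isClub_Ioi hW hWu (max b b₀))
    have hα : S ∩ Iio α = A α := hα
    refine ⟨α, bigOf α ((le_max_right _ _).trans_lt hα'), ?_⟩
    simp only [R]
    rw [← hα, inter_assoc, inter_self]
    exact inter_eq_left.2 (fun s hs => (hb s hs).trans ((le_max_left _ _).trans_lt hα'))
  have D3 : ∀ (S : Set W), ¬ S.Countable → ∃ α, (Iio α).Infinite ∧ R α = S ∩ Iio α ∧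
      ∀ β < α, ∃ γ ∈ S, β < γ ∧ γ < α := by
    intro S hS
    obtain ⟨α, hα, hα'⟩ := hA S (isClub_lim hW hWu hS b₀)
    have hα : S ∩ Iio α = A α := hα
    refine ⟨α, bigOf α hα'.1, ?_, hα'.2⟩
    simp only [R]
    rw [← hα, inter_assoc, inter_self]
  obtain ⟨T, hdec, hT, h3, h4⟩ := exists_T hW U R (fun α => inter_subset_right)
  have hTR : ∀ ξ c, (T ξ \ c ∈ I T ξ → False) ↔ T ξ \ c ∉ I T ξ := fun _ _ => Iff.rfl
  -- sets `R α` that are unbounded at `α` have `inf` in their closure
  have hcl : ∀ α, (Iio α).Infinite → Unbd T α (R α) →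
      KK.inf T ∈ closure (KK.r T '' (R α)) := by
    intro α hinf hU
    rw [mem_closure_iff_nhds_basis basis_inf]
    rintro ⟨F, H⟩ -
    by_contra hcon
    obtain ⟨γ, hγ⟩ := countable_bdd hW hWu ((insert α H).finite_toSet.countable)
    have hαγ : α < γ := hγ α (by simp)
    have hHγ : ∀ g ∈ H, g < γ := fun g hg => hγ g (by simp [hg])
    obtain ⟨ξ, hξ, h5, -⟩ := h4 α hinf hU γ hαγ.le (↑F ∪ ⋃ g ∈ H, T g) ⟨F, H, hHγ, subset_rfl⟩
    have h6 : KK.r T ξ ∈ NN T F H := by
      by_contra h7
      exact hcon ⟨KK.r T ξ, ⟨ξ, hξ, rfl⟩, h7⟩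
    rcases h6 with ⟨n, _, h⟩ | ⟨g, hg, h⟩
    · exact KK.l_ne_r h.symm
    · apply h5
      refine I_mono (r_mem_That.1 h) ?_
      apply sdiff_subset_sdiff_right
      intro x hx
      right
      simp only [mem_iUnion]
      exact ⟨g, hg, hx⟩
  -- no sequence in `X` converges to `inf`
  have hnoseq : ∀ β : ℕ → W, ¬ Tendsto (fun n => KK.r T (β n)) atTop (𝓝 (KK.inf T)) := by
    intro β hβ
    obtain ⟨α, hinf, hα⟩ := D2 (range β) (countable_range β)
    have hRα : ∀ n, β n < α := fun n => by
      have : β n ∈ R α := by rw [hα]; exact mem_range_self n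
      exact this.2
    have hev : ∀ (F : Finset ℕ) (H : Finset W), ∀ᶠ n in atTop, KK.r T (β n) ∉ NN T F H := by
      intro F H
      exact hβ ((isClopen_NN F H).compl.isOpen.mem_nhds inf_notMem_NN)
    have hnot : ∀ (c : Set ℕ) (F : Finset ℕ) (H : Finset W), c ⊆ ↑F ∪ ⋃ g ∈ H, T g →
        ∀ᶠ n in atTop, T (β n) \ c ∉ I T (β n) := by
      intro c F H hc
      filter_upwards [hev F H] with n hn hcon
      obtain ⟨g, hg, h⟩ := cover hdec hT hc hcon
      exact hn (Or.inr ⟨g, hg, h⟩)
    have hU : Unbd T α (R α) := by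
      rintro c ⟨F, H, hH, hc⟩
      obtain ⟨n, hn⟩ := (hnot c F H hc).exists
      exact ⟨β n, by rw [hα]; exact mem_range_self n, hn⟩
    -- those in `That α` are finitely many
    obtain ⟨N, hN⟩ := eventually_atTop.1 (hev ∅ {α})
    obtain ⟨ξ, hξ, h5, h6⟩ := h4 α hinf hU α le_rfl
      (((∅ : Finset ℕ) : Set ℕ) ∪ ⋃ g ∈ (Finset.range N).image β, T g)
      ⟨∅, (Finset.range N).image β, by
        intro g hg
        obtain ⟨n, _, rfl⟩ := Finset.mem_image.1 hg
        exact hRα n, subset_rfl⟩
    rw [hα] at hξ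
    obtain ⟨n, rfl⟩ := hξ
    rcases lt_or_ge n N with h | h
    · apply h5
      have : T (β n) \ (((∅ : Finset ℕ) : Set ℕ) ∪ ⋃ g ∈ (Finset.range N).image β, T g) = ∅ := by
        rw [sdiff_eq_empty]
        intro x hx
        right
        simp only [mem_iUnion]
        exact ⟨β n, Finset.mem_image.2 ⟨n, Finset.mem_range.2 h, rfl⟩, hx⟩
      rw [this]
      exact I_finite finite_empty
    · exact hN n h (Or.inr ⟨α, by simp, h6⟩)
  -- sequences in `D`
  have hD : ∀ U₀ : Set ℕ, KK.inf T ∈ closure (KK.l T '' U₀) →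
      ∃ u : ℕ → ℕ, (∀ n, u n ∈ U₀) ∧ Tendsto (fun n => KK.l T (u n)) atTop (𝓝 (KK.inf T)) := by
    intro U₀ hU₀
    obtain ⟨α, hinf, hα⟩ := D1 U₀
    have h7 : U α ∉ I T α := by
      rw [hα]
      rintro ⟨F, H, hH, hc⟩
      rw [mem_closure_iff_nhds_basis basis_inf] at hU₀
      obtain ⟨_, ⟨n, hn, rfl⟩, hk2⟩ := hU₀ (F, H) trivial
      apply hk2
      rcases hc hn with h | h
      · exact Or.inl ⟨n, h, rfl⟩
      · simp only [mem_iUnion] at h
        obtain ⟨g, hg, h⟩ := h
        exact Or.inr ⟨g, hg, h⟩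
    obtain ⟨B, hBU, hBinf, hBT⟩ := h3 α hinf h7
    let u : ℕ → ℕ := fun n => Nat.nth (· ∈ B) n
    have humem : ∀ n, u n ∈ B := fun n => Nat.nth_mem_of_infinite hBinf n
    have huinj : Function.Injective u := Nat.nth_injective hBinf
    refine ⟨u, fun n => by rw [← hα]; exact hBU (humem n), ?_⟩
    rw [(basis_inf).tendsto_right_iff]
    rintro ⟨F, H⟩ -
    have hfin : {n | KK.l T (u n) ∈ NN T F H}.Finite := by
      have h8 : ((F : Set ℕ) ∪ ⋃ g ∈ H, (B ∩ T g)).Finite :=
        F.finite_toSet.union (Finite.biUnion H.finite_toSet (fun g _ => hBT g))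
      refine (h8.preimage huinj.injOn).subset ?_
      rintro n (⟨m, hm, h⟩ | ⟨g, hg, h⟩)
      · left
        rw [KK.l_inj.1 h]; exact hm
      · right
        simp only [mem_iUnion]
        exact ⟨g, hg, humem n, h⟩
    have := hfin.eventually_cofinite_notMem
    rw [Nat.cofinite_eq_atTop] at this
    exact this
  have hcg : ∀ α, (𝓝 (KK.r T α)).IsCountablyGenerated := cg_r hdec hT hW
  have hcg' : ∀ k : KK T, k ≠ KK.inf T → (𝓝 k).IsCountablyGenerated := by
    intro k hk
    induction k using KK.cases' with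
    | h1 => exact absurd rfl hk
    | h2 n => rw [nhds_l]; infer_instance
    | h3 β => exact hcg β
  have hdense : closure (range (KK.l T)) = univ := by
    have h9 : ∀ α, KK.r T α ∈ closure (range (KK.l T)) := by
      intro α
      rw [mem_closure_iff_nhds_basis (basis_r hdec hT α)]
      rintro ⟨F, H⟩ hH
      have : T α \ (↑F ∪ ⋃ g ∈ H, T g) ≠ ∅ := by
        intro h
        exact hT α ⟨F, H, hH, sdiff_eq_empty.1 h⟩
      obtain ⟨n, hn⟩ := nonempty_iff_ne_empty.2 this
      have hnot : KK.l T n ∉ NN T F H := by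
        rintro (⟨m, hm, h⟩ | ⟨g, hg, h⟩)
        · exact hn.2 (Or.inl (by rw [KK.l_inj.1 h]; exact hm))
        · exact hn.2 (Or.inr (by simp only [mem_iUnion]; exact ⟨g, hg, h⟩))
      exact ⟨KK.l T n, mem_range_self n, hn.1, hnot⟩
    rw [eq_univ_iff_forall]
    intro k
    induction k using KK.cases' with
    | h1 =>
      rw [← closure_closure, mem_closure_iff_nhds_basis basis_inf]
      rintro ⟨F, H⟩ -
      obtain ⟨γ, hγ⟩ := countable_bdd hW hWu (H.finite_toSet.countable)
      exact ⟨KK.r T γ, h9 γ, notMem_NN hdec hT (F := F) (H := H) (α := γ) hγ⟩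
    | h2 n => exact subset_closure (mem_range_self n)
    | h3 β => exact h9 β
  refine ⟨KK T, inferInstance, KK.inf T, range (KK.r T), ?_⟩
  refine ⟨compact hdec hT, t2 hdec hT, ?_, ?_, ?_, ?_, ?_, ?_⟩
  · -- tightness
    intro S x hx
    by_cases hxi : x = KK.inf T
    · subst hxi
      have hsplit : S = (S ∩ range (KK.l T)) ∪ (S ∩ range (KK.r T)) ∪ (S ∩ {KK.inf T}) := by
        ext k
        simp only [mem_union, mem_inter_iff, mem_singleton_iff]
        constructor
        · intro hk
          induction k using KK.cases' with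
          | h1 => exact Or.inr ⟨hk, rfl⟩
          | h2 n => exact Or.inl (Or.inl ⟨hk, mem_range_self n⟩)
          | h3 β => exact Or.inl (Or.inr ⟨hk, mem_range_self β⟩)
        · rintro ((h | h) | h)
          · exact h.1
          · exact h.1
          · exact h.1
      rw [hsplit, closure_union, closure_union] at hx
      rcases hx with (hx | hx) | hx
      · exact ⟨_, inter_subset_left, (countable_range _).mono inter_subset_right, hx⟩
      · by_cases hc : (S ∩ range (KK.r T)).Countable
        · exact ⟨_, inter_subset_left, hc, hx⟩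
        · set Q : Set W := KK.r T ⁻¹' S with hQ
          have hQ' : KK.r T '' Q = S ∩ range (KK.r T) := by
            rw [hQ, image_preimage_eq_inter_range]
          have hQc : ¬ Q.Countable := fun h => hc (by rw [← hQ']; exact h.image _)
          obtain ⟨α, hinf, hα, hlim⟩ := D3 Q hQc
          have hUn : Unbd T α (R α) := by
            rintro c ⟨F, H, hH, hcH⟩
            have : ∃ ξ ∈ Q, ξ < α ∧ ∀ g ∈ H, g < ξ := by
              rcases H.eq_empty_or_nonempty with rfl | hne
              · obtain ⟨β, hβ⟩ := hinf.nonempty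
                obtain ⟨γ, hγ, -, h12⟩ := hlim β hβ
                exact ⟨γ, hγ, h12, by simp⟩
              · obtain ⟨γ, hγ, h11, h12⟩ := hlim (H.max' hne) (hH _ (H.max'_mem hne))
                exact ⟨γ, hγ, h12, fun g hg => (H.le_max' g hg).trans_lt h11⟩
            obtain ⟨ξ, hξ, hξα, hg⟩ := this
            exact ⟨ξ, by rw [hα]; exact ⟨hξ, hξα⟩, not_mem_of_sdiff (hT ξ) ⟨F, H, hg, hcH⟩⟩
          refine ⟨KK.r T '' (R α), ?_, ?_, hcl α hinf hUn⟩
          · rw [hα]
            rintro _ ⟨ξ, hξ, rfl⟩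
            exact hξ.1
          · exact ((hW α).mono (fun ξ hξ => hξ.2)).image _
      · have : KK.inf T ∈ S ∩ {KK.inf T} := by
          have h13 : closure (S ∩ {KK.inf T}) ⊆ {KK.inf T} := by
            have := t2 hdec hT
            exact closure_minimal inter_subset_right isClosed_singleton
          rcases (S ∩ {KK.inf T}).eq_empty_or_nonempty with h | ⟨k, hk⟩
          · rw [h, closure_empty] at hx
            exact absurd hx (notMem_empty _)
          · have : k = KK.inf T := hk.2
            rwa [this] at hk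
        exact ⟨{KK.inf T}, by simpa using this.1, countable_singleton _, subset_closure rfl⟩
    · have := hcg' x hxi
      obtain ⟨u, hu1, hu2⟩ : ∃ u : ℕ → KK T, (∀ n, u n ∈ S) ∧ Tendsto u atTop (𝓝 x) := by
        have hne : (𝓝 x ⊓ 𝓟 S).NeBot := mem_closure_iff_clusterPt.1 hx
        obtain ⟨u, hu⟩ := Filter.exists_seq_tendsto (𝓝 x ⊓ 𝓟 S)
        rw [tendsto_inf, tendsto_principal] at hu
        obtain ⟨N, hN⟩ := eventually_atTop.1 hu.2
        exact ⟨fun n => u (n + N), fun n => hN _ (by omega),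
          hu.1.comp (tendsto_add_atTop_nat N)⟩
      exact ⟨range u, range_subset_iff.2 hu1, countable_range u,
        mem_closure_of_tendsto hu2 (Eventually.of_forall (fun n => mem_range_self n))⟩
  · intro x y hxy
    exact exists_clopen_sep hdec hT hxy
  · rintro ⟨β, hβ⟩
    exact KK.r_ne_inf hβ
  · rw [mem_closure_iff_nhds_basis basis_inf]
    rintro ⟨F, H⟩ -
    obtain ⟨γ, hγ⟩ := countable_bdd hW hWu (H.finite_toSet.countable)
    exact ⟨KK.r T γ, mem_range_self γ, notMem_NN hdec hT (F := F) (H := H) (α := γ) hγ⟩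
  · intro u x hu hux
    by_contra hx
    induction x using KK.cases' with
    | h1 =>
      choose β hβ using hu
      apply hnoseq β
      simpa only [hβ] using hux
    | h2 n =>
      rw [nhds_l, tendsto_pure] at hux
      obtain ⟨m, hm⟩ := hux.exists
      obtain ⟨β, hβ⟩ := hu m
      rw [hm] at hβ
      exact KK.l_ne_r hβ.symm
    | h3 β => exact hx (mem_range_self β)
  · intro Z _ _ f hf
    have hpt : ∀ k, k ≠ KK.inf T → ContinuousAt f k := by
      intro k hk
      have := hcg' k hk
      exact tendsto_of_seq_tendsto (fun u hu => hf hu)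
    rw [continuous_iff_continuousAt]
    intro k
    by_cases hk : k = KK.inf T
    · subst hk
      rw [ContinuousAt, (closed_nhds_basis (f (KK.inf T))).tendsto_right_iff]
      rintro V ⟨hV, hVc⟩
      by_contra hcon
      have h16 : KK.inf T ∈ closure (f ⁻¹' Vᶜ) := by
        rw [mem_closure_iff_frequently]
        intro h
        apply hcon
        filter_upwards [h] with y hy
        simpa using hy
      have h17 : f ⁻¹' Vᶜ ⊆ closure (KK.l T '' {n | f (KK.l T n) ∈ Vᶜ}) := by
        intro y hy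
        have hyi : y ≠ KK.inf T := by
          rintro rfl
          exact hy (mem_of_mem_nhds hV)
        have hyn : f ⁻¹' Vᶜ ∈ 𝓝 y := (hpt y hyi) (hVc.isOpen_compl.mem_nhds hy)
        have hy2 : y ∈ closure (range (KK.l T)) := by rw [hdense]; trivial
        rw [mem_closure_iff_nhds] at hy2 ⊢
        intro t ht
        obtain ⟨z, hz1, ⟨n, rfl⟩⟩ := hy2 _ (inter_mem ht hyn)
        exact ⟨_, hz1.1, ⟨n, hz1.2, rfl⟩⟩
      have h18 : KK.inf T ∈ closure (KK.l T '' {n | f (KK.l T n) ∈ Vᶜ}) :=
        closure_minimal h17 isClosed_closure h16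
      obtain ⟨u, hu1, hu2⟩ := hD _ h18
      have h19 := hf hu2
      obtain ⟨n, hn⟩ := (h19.eventually hV).exists
      exact hu1 n hn
    · exact hpt k hk

end main

theorem exists_goodK (hD : _root_.P8e9337.Diamond) :
    ∃ (K : Type) (_ : TopologicalSpace K) (p : K) (X : Set K), _root_.P8e9337.GoodK K p X := by
  obtain ⟨A, hA⟩ := hD
  have hcard : Cardinal.mk (Ordinal.omega 1 : Ordinal.{0}).ToType = Cardinal.aleph 1 := by
    rw [Cardinal.mk_toType, Ordinal.card_omega]
  refine main_good (W := (Ordinal.omega 1 : Ordinal.{0}).ToType) ?_ ?_ A hA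
  · intro α
    have h1 : Cardinal.mk (Iio α) < Cardinal.mk (Ordinal.omega 1 : Ordinal.{0}).ToType := by
      apply Cardinal.mk_Iio_lt
      rw [hcard, Ordinal.type_toType, Cardinal.ord_aleph]
    rw [hcard, ← Cardinal.succ_aleph0, Order.lt_succ_iff] at h1
    exact (Cardinal.le_aleph0_iff_set_countable).1 h1
  · intro h
    have h2 := (Cardinal.le_aleph0_iff_set_countable).2 h
    rw [Cardinal.mk_univ, hcard] at h2
    exact absurd h2 (not_le.2 Cardinal.aleph0_lt_aleph_one)

end Pool.Agent.P8e9337
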