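import Pool.Agent.Lib.P8e9337.KOm

/-! # MP_8e9337_gt: the group generated by a good compact space; the converse. -/

open Set Filter Topology

namespace P8e9337

section Emb

variable {K : Type} [TopologicalSpace K] (p : K)

/-- the group of functions from the clopen sets not containing `p` to `{1, -1}` -/
abbrev PG (p : K) : Type := {C : Set K // IsClopen C ∧ p ∉ C} → ℤˣ

open Classical in
/-- the evaluation map -/
noncomputable def ev (p : K) (x : K) : PG p := fun C => if x ∈ C.1 then -1 else 1

lemma ev_self : ev p p = 1 := by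
  funext C
  simp [ev, C.2.2]

lemma ev_inv (x : K) : (ev p x)⁻¹ = ev p x := by
  funext C
  simp [ev, Int.units_inv_eq_self]

lemma continuous_ev : Continuous (ev p) := by
  apply continuous_pi
  intro C
  apply IsLocallyConstant.continuous
  classical
  have h : IsLocallyConstant (fun x : K => decide (x ∈ C.1)) := by
    rw [IsLocallyConstant.iff_isOpen_fiber]
    intro b
    cases b with
    | true =>
      convert C.2.1.2 using 1
      ext x; simp
    | false =>
      convert C.2.1.1.isOpen_compl using 1
      ext x; simp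
  have h2 : (fun x : K => ev p x C) = (fun b : Bool => if b then (-1 : ℤˣ) else 1) ∘
      (fun x : K => decide (x ∈ C.1)) := by
    ext x; simp [ev]
  rw [h2]
  exact h.comp _

lemma ev_injective (hsep : ∀ x y : K, x ≠ y → ∃ C : Set K, IsClopen C ∧ x ∈ C ∧ y ∉ C) :
    Function.Injective (ev p) := by
  intro x y hxy
  by_contra hne
  obtain ⟨C, hC, hx, hy⟩ := hsep x y hne
  by_cases hp : p ∈ C
  · have := congrFun hxy ⟨Cᶜ, hC.compl, fun h => h hp⟩
    simp [ev, hx, hy] at this
  · have := congrFun hxy ⟨C, hC, hp⟩
    simp [ev, hx, hy] at this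

end Emb

lemma not_sequential {K H : Type} [TopologicalSpace K] [CompactSpace K] [TopologicalSpace H]
    [T2Space H] {i : K → H} (hi : Continuous i) (hinj : Function.Injective i) {X : Set K} {p : K}
    (hX : IsSeqClosed X) (hp : p ∉ X) (hpX : p ∈ closure X) : ¬ SequentialSpace H := by
  intro hseq
  have hemb : Topology.IsClosedEmbedding i := hi.isClosedEmbedding hinj
  have hsc : IsSeqClosed (i '' X) := by
    intro u g hu hug
    choose x hx hxu using hu
    have hr : g ∈ range i := hemb.isClosed_range.mem_of_tendsto hug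
      (Eventually.of_forall fun n => ⟨x n, hxu n⟩)
    obtain ⟨k, rfl⟩ := hr
    refine ⟨k, ?_, rfl⟩
    apply hX hx
    have h7 : Tendsto (i ∘ x) atTop (𝓝 (i k)) := by
      have : i ∘ x = u := funext hxu
      rw [this]; exact hug
    exact hemb.isInducing.tendsto_nhds_iff.2 h7
  have h9 : IsClosed X := by
    rw [← preimage_image_eq X hinj]
    exact hsc.isClosed.preimage hi
  exact hp (h9.closure_eq ▸ hpX)

/-- The group generated by a good compact space. -/
theorem group_of_goodK {K : Type} [TopologicalSpace K] {p : K} {X : Set K} (h : GoodK K p X) :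
    ∃ (G : Type) (_ : Group G) (τ : TopologicalSpace G), IsTopologicalGroup G ∧ T2Space G ∧
      IsSGroup G τ ∧ CountablyTight G ∧ IsKSpace G ∧ ¬ SequentialSpace G := by
  have := h.cpt
  have := h.t2
  let H := Subgroup.closure (range (ev p))
  let i : K → H := fun x => ⟨ev p x, Subgroup.subset_closure ⟨x, rfl⟩⟩
  have hi : Continuous i := (continuous_ev p).subtype_mk _
  have hinj : Function.Injective i := fun x y hxy =>
    ev_injective p h.sep (congrArg Subtype.val hxy)
  have hinv' : ∀ x, (i x)⁻¹ = i x := fun x => Subtype.ext (ev_inv p x)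
  have hinv : ∀ x, ∃ y, i y = (i x)⁻¹ := fun x => ⟨x, (hinv' x).symm⟩
  have hone : ∃ o, i o = 1 := ⟨p, Subtype.ext (ev_self p)⟩
  have hgen : ∀ g : H, ∃ n, g ∈ Hn i n := by
    rintro ⟨g, hg⟩
    induction hg using Subgroup.closure_induction with
    | mem x hx =>
      obtain ⟨k, rfl⟩ := hx
      exact ⟨1, Hn_one k⟩
    | one => exact ⟨0, Hn_zero⟩
    | mul x y hx hy hx' hy' =>
      obtain ⟨n, hn⟩ := hx'
      obtain ⟨m, hm⟩ := hy'
      exact ⟨n + m, Hn_mul hn hm⟩
    | inv x hx hx' =>
      obtain ⟨n, y, hy⟩ := hx'
      refine ⟨n, y, ?_⟩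
      have h1 := congrArg (fun z : H => z⁻¹) hy
      simp only [← Finset.prod_inv_distrib, hinv'] at h1
      exact h1
  have hle := @kTop_le H _ _ _ _ K _ _ i hi
  have hkc := @kTop_continuous H _ _ _ _ K _ _ i hi
  have hG : @IsTopologicalGroup H (kTop instTopologicalSpaceSubtype i) _ := kTop_group hi hinv hone hgen
  have hT : @T2Space H (kTop instTopologicalSpaceSubtype i) := kTop_t2
  refine ⟨H, inferInstance, kTop instTopologicalSpaceSubtype i, hG, hT, ?_, kTop_tight hi h.tight, kTop_kspace hi, ?_⟩
  · -- s-group
    intro σ hσ hσ2 hconv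
    apply hle σ hσ
    have hreg : @RegularSpace H σ := @IsTopologicalGroup.regularSpace H σ _ hσ
    apply @GoodK.cont K _ p X h H σ hreg i
    -- sequential continuity
    intro u x hu
    -- interleaved sequence
    let v : ℕ → K := fun n => if Even n then u (n / 2) else x
    have hv : Tendsto v atTop (𝓝 x) := by
      have h1 : Tendsto (fun n : ℕ => n / 2) atTop atTop :=
        Nat.tendsto_div_const_atTop (by norm_num)
      intro U hU
      have hU' := (hu.comp h1) hU
      simp only [mem_map, mem_atTop_sets, mem_preimage] at hU' ⊢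
      obtain ⟨N, hN⟩ := hU'
      refine ⟨N, fun n hn => ?_⟩
      by_cases he : Even n
      · simp only [v, he, if_true]
        exact hN n hn
      · simp only [v, he, if_false]
        exact mem_of_mem_nhds hU
    obtain ⟨y, hy⟩ := hconv (i ∘ v) ⟨i x, Tendsto.comp
      (@Continuous.tendsto _ _ _ (kTop instTopologicalSpaceSubtype i) _ hkc x) hv⟩
    have h2 : Tendsto (fun n : ℕ => 2 * n) atTop atTop :=
      tendsto_id.const_mul_atTop' (by norm_num)
    have h3 : Tendsto (fun n : ℕ => 2 * n + 1) atTop atTop :=
      (tendsto_add_atTop_nat 1).comp h2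
    have h4 : Tendsto (fun n => i (u n)) atTop (@nhds H σ y) := by
      have := hy.comp h2
      refine this.congr fun n => ?_
      simp [v]
    have h5 : Tendsto (fun _ : ℕ => i x) atTop (@nhds H σ y) := by
      have := hy.comp h3
      refine this.congr fun n => ?_
      have : ¬ Even (2 * n + 1) := by simp
      simp [v, this]
    have h6 : i x = y := @tendsto_nhds_unique H ℕ σ hσ2 _ _ _ _ _ (@tendsto_const_nhds H σ ℕ _ _) h5
    rw [← h6] at h4
    exact h4
  · -- not sequential
    intro hseq
    exact @not_sequential K H _ _ (kTop instTopologicalSpaceSubtype i) hT i hkc hinj X p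
      h.seqClosed h.notMem h.mem_closure hseq

/-- Under the Moore-Mrowka statement, countably tight Hausdorff `k`-spaces are sequential. -/
theorem sequential_of_mooreMrowka (hM : MooreMrowka) (G : Type) [TopologicalSpace G] [T2Space G]
    (ht : CountablyTight G) (hk : IsKSpace G) : SequentialSpace G := by
  refine ⟨fun A hA => hk A fun L hL => ?_⟩
  have : CompactSpace L := isCompact_iff_compactSpace.1 hL
  have hs := hM L (ht.subtype L)
  have h1 : IsSeqClosed ((↑) ⁻¹' A : Set L) := by
    intro u x hu hux
    exact hA (fun n => hu n) ((continuous_subtype_val.tendsto x).comp hux)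
  have h2 := h1.isClosed
  have h3 := hL.isClosed.isClosedEmbedding_subtypeVal.isClosedMap _ h2
  rwa [Subtype.image_preimage_coe, inter_comm] at h3

end P8e9337
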