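import Pool.Agent.Lib.P8e9337.DiaDefs
import Pool.Agent.Lib.P8e9337.Good
import Pool.Agent.Lib.P8e9337.Grp
import Pool.Agent.Lib.GITZ.ZF
import Pool.Agent.Lib.BVM.Facts

/-!
# Diamond in the structure `(ZFSet, ∈)`
-/

set_option autoImplicit false

open Set

namespace Pool.Agent.Lib.P8e9337.DiaZ

open Pool.Agent.Lib.BVM Pool.Agent.Lib.GITZ.ZFAux

/-- the elements of `o` as a type in the lowest universe -/
def KK (o : ZFSet.{0}) : Type := Shrink.{0} o

/-- the elements -/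
noncomputable def ee (o : ZFSet.{0}) (a : KK o) : ZFSet.{0} := ((equivShrink o).symm a).1

theorem ee_mem (o : ZFSet.{0}) (a : KK o) : ee o a ∈ o := ((equivShrink o).symm a).2

theorem ee_inj {o : ZFSet.{0}} {a b : KK o} (h : ee o a = ee o b) : a = b :=
  (equivShrink o).symm.injective (Subtype.ext h)

theorem exists_ee {o x : ZFSet.{0}} (h : x ∈ o) : ∃ a : KK o, ee o a = x :=
  ⟨equivShrink o ⟨x, h⟩, congrArg Subtype.val ((equivShrink o).symm_apply_apply ⟨x, h⟩)⟩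

/-- the order -/
def rr (o : ZFSet.{0}) (a b : KK o) : Prop := ee o a ∈ ee o b

theorem isSTO {o : ZFSet.{0}} (ho : o.IsOrdinal) : IsStrictTotalOrder (KK o) (rr o) where
  trichotomous a b h1 h2 := by
    rcases ZFSet.IsOrdinal.mem_trichotomous (ho.mem (ee_mem o a)) (ho.mem (ee_mem o b)) with h | h | h
    · exact absurd h h1
    · exact ee_inj h
    · exact absurd h h2
  irrefl a := ZFSet.mem_irrefl _
  trans a b c h1 h2 := ho.mem_trans' h1 h2 (ee_mem o c)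

open Classical in
/-- the linear order -/
@[reducible] noncomputable def lo {o : ZFSet.{0}} (ho : o.IsOrdinal) : LinearOrder (KK o) :=
  letI := isSTO ho
  linearOrderOfSTO (rr o)

theorem wf (o : ZFSet.{0}) : WellFounded (rr o) := InvImage.wf (ee o) ZFSet.mem_wf

theorem isOrdinal_of {o : ZFSet.{0}} (h : Pool.Agent.Lib.WkD.IsOrd EE o) : o.IsOrdinal := by
  rw [ZFSet.isOrdinal_iff_forall_mem_isTransitive]
  exact ⟨fun y hy z hz => h.1 y hy z hz, fun y hy z hz w hw => h.2 y hy z hz w hw⟩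

theorem ext_EE (x y : ZFSet.{0}) (h : ∀ z, EE z x ↔ EE z y) : x = y := ZFSet.ext h

/-- the graph of a sequence -/
noncomputable def gr (g : ℕ → ZFSet.{0}) : ZFSet.{0} := ZFSet.range fun n => ZFSet.pair (nm n) (g n)

theorem app_gr {g : ℕ → ZFSet.{0}} {x y : ZFSet.{0}} :
    App EE (gr g) x y ↔ ∃ n, x = nm n ∧ y = g n := by
  constructor
  · rintro ⟨p, hp, hpf⟩
    rw [isPair_iff] at hp
    subst hp
    obtain ⟨n, hn⟩ := ZFSet.mem_range.1 hpf
    obtain ⟨h1, h2⟩ := ZFSet.pair_injective hn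
    exact ⟨n, h1.symm, h2.symm⟩
  · rintro ⟨n, rfl, rfl⟩
    exact ⟨_, (isPair_iff _ _ _).2 rfl, ZFSet.mem_range.2 ⟨n, rfl⟩⟩

theorem isSurj_gr {g : ℕ → ZFSet.{0}} {o : ZFSet.{0}} (h1 : ∀ n, g n ∈ o)
    (h2 : ∀ y ∈ o, ∃ n, g n = y) : IsSurj EE (gr g) ww o := by
  refine ⟨⟨⟨?_, ?_⟩, ?_⟩, ?_⟩
  · intro p hp
    obtain ⟨n, hn⟩ := ZFSet.mem_range.1 hp
    exact ⟨nm n, g n, nm_mem_ww n, (isPair_iff _ _ _).2 hn.symm⟩
  · intro x hx
    obtain ⟨n, rfl⟩ := (mem_ww x).1 hx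
    refine ⟨g n, app_gr.2 ⟨n, rfl, rfl⟩, fun y hy => ?_⟩
    obtain ⟨m, h3, h4⟩ := app_gr.1 hy
    rw [h4, nm_inj h3]
  · intro x y hxy
    obtain ⟨n, -, rfl⟩ := app_gr.1 hxy
    exact h1 n
  · intro y hy
    obtain ⟨n, rfl⟩ := h2 y hy
    exact ⟨nm n, nm_mem_ww n, app_gr.2 ⟨n, rfl, rfl⟩⟩

theorem goodK (h : _root_.P8e9337.DiamondIn (fun x y : ZFSet.{0} => x ∈ y)) :
    ∃ (K : Type) (_ : TopologicalSpace K) (p : K) (X : Set K), _root_.P8e9337.GoodK K p X := by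
  classical
  obtain ⟨o, ⟨hO, w, hw, hwo, hns, hct⟩, S, hS, hSsub, hSg⟩ := h
  have ho : o.IsOrdinal := isOrdinal_of hO
  obtain rfl : w = ww := omega_unique ext_EE hw isOmega_ww
  letI : LinearOrder (KK o) := lo ho
  haveI : WellFoundedLT (KK o) := ⟨wf o⟩
  -- countable initial segments
  have hW : ∀ α : KK o, (Iio α).Countable := by
    intro α
    rcases (Iio α).eq_empty_or_nonempty with h0 | ⟨b, hb⟩
    · rw [h0]
      exact countable_empty
    · obtain ⟨f, hf⟩ := hct (ee o α) (ee_mem o α) ⟨ee o b, hb⟩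
      have h1 : ∀ x : Iio α, ∃ n : ℕ, App EE f (nm n) (ee o x.1) := by
        rintro ⟨x, hx⟩
        obtain ⟨m, hm, hm2⟩ := hf.2 (ee o x) hx
        obtain ⟨n, rfl⟩ := (mem_ww m).1 hm
        exact ⟨n, hm2⟩
      choose g hg using h1
      refine Set.countable_coe_iff.1 (Function.Injective.countable (f := g) ?_)
      intro a b hab
      have h2 := hg b
      rw [← hab] at h2
      exact Subtype.ext (ee_inj (app_unique hf.1.1 (nm_mem_ww _) (hg a) h2))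
  -- uncountable
  have hWu : ¬ (univ : Set (KK o)).Countable := by
    intro hc
    obtain ⟨a, -⟩ := exists_ee hwo
    obtain ⟨g, hg⟩ := hc.exists_eq_range ⟨a, mem_univ _⟩
    refine hns (gr fun n => ee o (g n)) (isSurj_gr (fun n => ee_mem o _) fun y hy => ?_)
    obtain ⟨b, rfl⟩ := exists_ee hy
    have h1 : b ∈ range g := hg ▸ mem_univ b
    obtain ⟨n, rfl⟩ := h1
    exact ⟨n, rfl⟩
  have hnomax : ∀ b : KK o, ∃ c, b < c := by
    intro b
    by_contra hcon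
    push Not at hcon
    refine hWu (((hW b).insert b).mono fun x _ => ?_)
    rcases (hcon x).lt_or_eq with h1 | h1
    · exact Or.inr h1
    · exact Or.inl h1
  refine Pool.Agent.P8e9337.main_good hW hWu
    (fun a => {b | ∃ s, App EE S (ee o a) s ∧ ee o b ∈ s}) fun X t ht => ?_
  -- the sets coded
  let cs : Set (KK o) → ZFSet.{0} := fun Y => ZFSet.sep (fun x => ∃ b ∈ Y, ee o b = x) o
  have mem_cs : ∀ (Y : Set (KK o)) (b : KK o), ee o b ∈ cs Y ↔ b ∈ Y := by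
    intro Y b
    rw [ZFSet.mem_sep]
    constructor
    · rintro ⟨-, c, hc, hcb⟩
      rwa [← ee_inj hcb]
    · exact fun hb => ⟨ee_mem o b, b, hb, rfl⟩
  have cs_sub : ∀ (Y : Set (KK o)) (x : ZFSet.{0}), x ∈ cs Y → x ∈ o := fun Y x hx =>
    (ZFSet.mem_sep.1 hx).1
  have hclub : Pool.Agent.Lib.WkD.IsClub EE (cs t) o := by
    refine ⟨cs_sub t, ?_, ?_⟩
    · intro x hx
      obtain ⟨b, rfl⟩ := exists_ee hx
      obtain ⟨c, hc⟩ := hnomax b
      obtain ⟨y, hy, hcy⟩ := ht.isCofinal c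
      exact ⟨ee o y, (mem_cs t y).2 hy, hc.trans_le hcy⟩
    · intro a ha hne hall
      obtain ⟨α, rfl⟩ := exists_ee ha
      rw [show EE (ee o α) (cs t) ↔ α ∈ t from mem_cs t α]
      have hall' : ∀ ξ < α, ∃ η ∈ t, ξ < η ∧ η < α := by
        intro ξ hξ
        obtain ⟨y, hy, h1, h2⟩ := hall (ee o ξ) hξ
        obtain ⟨η, rfl⟩ := exists_ee (cs_sub t y hy)
        exact ⟨η, (mem_cs t η).1 hy, h1, h2⟩
      have hne' : (t ∩ Iio α).Nonempty := by
        obtain ⟨x, hx⟩ := hne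
        obtain ⟨ξ, rfl⟩ := exists_ee (ho.mem_trans hx (ee_mem o α))
        obtain ⟨η, hη, -, h2⟩ := hall' ξ hx
        exact ⟨η, hη, h2⟩
      refine ht.isLUB_mem (t := t ∩ Iio α) inter_subset_left hne' ⟨fun x hx => le_of_lt hx.2, ?_⟩
      intro u hu
      by_contra hcon
      rw [not_le] at hcon
      obtain ⟨η, hη, h1, h2⟩ := hall' u hcon
      exact absurd (hu ⟨hη, h2⟩) (not_le.2 h1)
  obtain ⟨a, s, hac, has, hs⟩ := hSg (cs X) (cs_sub X) (cs t) hclub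
  obtain ⟨α, rfl⟩ := exists_ee (cs_sub t a hac)
  refine ⟨α, ?_, (mem_cs t α).1 hac⟩
  show X ∩ Iio α = {b | ∃ s, App EE S (ee o α) s ∧ ee o b ∈ s}
  ext b
  constructor
  · rintro ⟨h1, h2⟩
    exact ⟨s, has, (hs _).2 ⟨(mem_cs X b).2 h1, h2⟩⟩
  · rintro ⟨s', hs', hb⟩
    have h3 : s' = s := app_unique hS (ee_mem o α) hs' has
    rw [h3] at hb
    obtain ⟨h4, h5⟩ := (hs _).1 hb
    exact ⟨(mem_cs X b).1 h4, h5⟩

end Pool.Agent.Lib.P8e9337.DiaZ
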