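import Pool.Agent.Lib.P8e9337.Tight

/-! # MP_8e9337_gt: the direct limit topology on a group generated by a compact set. -/

open Set Filter Topology

namespace P8e9337

/-! ### Closed sets in the square of a `k_ω`-space -/

lemma isOpen_of_inter {X : Type*} [TopologicalSpace X] (E : ℕ → Set X)
    (hE : ∀ n, IsClosed (E n)) (hdet : ∀ C, (∀ n, IsClosed (C ∩ E n)) → IsClosed C)
    {A : Set X} (hA : ∀ n, ∀ x ∈ A ∩ E n, ∃ P, IsOpen P ∧ x ∈ P ∧ P ∩ E n ⊆ A) : IsOpen A := by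
  rw [← isClosed_compl_iff]
  apply hdet
  intro n
  choose! P hP hxP hPA using hA n
  have : Aᶜ ∩ E n = E n ∩ (⋃ x ∈ A ∩ E n, P x)ᶜ := by
    ext y
    simp only [mem_inter_iff, mem_compl_iff, mem_iUnion, not_exists]
    constructor
    · rintro ⟨h1, h2⟩
      exact ⟨h2, fun x hx hy => h1 (hPA x hx ⟨hy, h2⟩)⟩
    · rintro ⟨h1, h2⟩
      exact ⟨fun hy => h2 y ⟨hy, h1⟩ (hxP y ⟨hy, h1⟩), h1⟩
  rw [this]
  exact (hE n).inter (isOpen_biUnion fun x hx => hP x hx).isClosed_compl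

theorem isClosed_sq {X : Type*} [TopologicalSpace X] [T2Space X] (E : ℕ → Set X)
    (hE : ∀ n, IsCompact (E n)) (hmono : Monotone E) (hcov : ∀ x, ∃ n, x ∈ E n)
    (hdet : ∀ C, (∀ n, IsClosed (C ∩ E n)) → IsClosed C) {S : Set (X × X)}
    (hS : ∀ n, IsClosed (S ∩ E n ×ˢ E n)) : IsClosed S := by
  rw [← isOpen_compl_iff, isOpen_iff_mem_nhds]
  rintro ⟨x, y⟩ hxy
  obtain ⟨n₁, hn₁⟩ := hcov x
  obtain ⟨n₂, hn₂⟩ := hcov y
  set N := max n₁ n₂
  have hx : x ∈ E N := hmono (le_max_left _ _) hn₁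
  have hy : y ∈ E N := hmono (le_max_right _ _) hn₂
  -- one step of the construction
  have step : ∀ n (A B : Set X), IsCompact A → IsCompact B → A ⊆ E n → B ⊆ E n →
      A ×ˢ B ⊆ Sᶜ → ∃ A' B' P Q : Set X, IsCompact A' ∧ IsCompact B' ∧ A' ⊆ E (n+1) ∧
        B' ⊆ E (n+1) ∧ A' ×ˢ B' ⊆ Sᶜ ∧ IsOpen P ∧ IsOpen Q ∧ A ⊆ P ∧ B ⊆ Q ∧
        P ∩ E (n+1) ⊆ A' ∧ Q ∩ E (n+1) ⊆ B' := by
    intro n A B hA hB hAE hBE hAB
    have hO : IsOpen (S ∩ E (n+1) ×ˢ E (n+1))ᶜ := (hS (n+1)).isOpen_compl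
    obtain ⟨U, V, hU, hV, hAU, hBV, hUV⟩ := generalized_tube_lemma hA hB hO
      (fun q hq h => hAB hq h.1)
    have h1 : SeparatedNhds A (E (n+1) \ U) :=
      SeparatedNhds.of_isCompact_isCompact hA ((hE (n+1)).diff hU)
        (disjoint_left.2 fun a ha h => h.2 (hAU ha))
    have h2 : SeparatedNhds B (E (n+1) \ V) :=
      SeparatedNhds.of_isCompact_isCompact hB ((hE (n+1)).diff hV)
        (disjoint_left.2 fun a ha h => h.2 (hBV ha))
    obtain ⟨P, P', hP, hP', hAP, hP'E, hPP⟩ := h1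
    obtain ⟨Q, Q', hQ, hQ', hBQ, hQ'E, hQQ⟩ := h2
    refine ⟨E (n+1) \ P', E (n+1) \ Q', P, Q, (hE _).diff hP', (hE _).diff hQ', sdiff_subset,
      sdiff_subset, ?_, hP, hQ, hAP, hBQ, ?_, ?_⟩
    · rintro ⟨a, b⟩ ⟨ha, hb⟩ h
      have haU : a ∈ U := by
        by_contra hn
        exact ha.2 (hP'E ⟨ha.1, hn⟩)
      have hbV : b ∈ V := by
        by_contra hn
        exact hb.2 (hQ'E ⟨hb.1, hn⟩)
      exact hUV ⟨haU, hbV⟩ ⟨h, ha.1, hb.1⟩
    · rintro a ⟨ha, haE⟩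
      exact ⟨haE, fun h => disjoint_left.1 hPP ha h⟩
    · rintro a ⟨ha, haE⟩
      exact ⟨haE, fun h => disjoint_left.1 hQQ ha h⟩
  -- the sequence
  let Good : ℕ → Set X × Set X → Prop := fun n p =>
    IsCompact p.1 ∧ IsCompact p.2 ∧ p.1 ⊆ E (N + n) ∧ p.2 ⊆ E (N + n) ∧ p.1 ×ˢ p.2 ⊆ Sᶜ
  have step' : ∀ n (p : {p // Good n p}), ∃ q : {q // Good (n+1) q}, ∃ P Q : Set X,
      IsOpen P ∧ IsOpen Q ∧ p.1.1 ⊆ P ∧ p.1.2 ⊆ Q ∧ P ∩ E (N + n + 1) ⊆ q.1.1 ∧
        Q ∩ E (N + n + 1) ⊆ q.1.2 := by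
    rintro n ⟨⟨A, B⟩, hA, hB, hAE, hBE, hAB⟩
    obtain ⟨A', B', P, Q, h1, h2, h3, h4, h5, h6, h7, h8, h9, h10, h11⟩ :=
      step (N+n) A B hA hB hAE hBE hAB
    exact ⟨⟨(A', B'), h1, h2, h3, h4, h5⟩, P, Q, h6, h7, h8, h9, h10, h11⟩
  choose nxt P Q hP hQ hAP hBQ hPA hQB using step'
  let s : ∀ n, {p // Good n p} := fun n => Nat.rec (motive := fun n => {p // Good n p})
    ⟨({x}, {y}), isCompact_singleton, isCompact_singleton, by simpa using hx, by simpa using hy,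
      by simpa using hxy⟩ (fun n p => nxt n p) n
  have hs : ∀ n, s (n+1) = nxt n (s n) := fun n => rfl
  have hm1 : Monotone fun n => (s n).1.1 := by
    apply monotone_nat_of_le_succ
    intro n a ha
    exact hPA n (s n) ⟨hAP n (s n) ha, hmono (by omega) ((s n).2.2.2.1 ha)⟩
  have hm2 : Monotone fun n => (s n).1.2 := by
    apply monotone_nat_of_le_succ
    intro n a ha
    exact hQB n (s n) ⟨hBQ n (s n) ha, hmono (by omega) ((s n).2.2.2.2.1 ha)⟩
  have hoA : IsOpen (⋃ n, (s n).1.1) := by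
    apply isOpen_of_inter E (fun n => (hE n).isClosed) hdet
    rintro m a ⟨ha, haE⟩
    obtain ⟨n, hn⟩ := mem_iUnion.1 ha
    have hn' : a ∈ (s (max m n)).1.1 := hm1 (le_max_right _ _) hn
    refine ⟨P (max m n) (s (max m n)), hP _ _, hAP _ _ hn', ?_⟩
    rintro b ⟨hb, hbE⟩
    exact mem_iUnion.2 ⟨max m n + 1, hPA _ _ ⟨hb, hmono (by omega) hbE⟩⟩
  have hoB : IsOpen (⋃ n, (s n).1.2) := by
    apply isOpen_of_inter E (fun n => (hE n).isClosed) hdet
    rintro m a ⟨ha, haE⟩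
    obtain ⟨n, hn⟩ := mem_iUnion.1 ha
    have hn' : a ∈ (s (max m n)).1.2 := hm2 (le_max_right _ _) hn
    refine ⟨Q (max m n) (s (max m n)), hQ _ _, hBQ _ _ hn', ?_⟩
    rintro b ⟨hb, hbE⟩
    exact mem_iUnion.2 ⟨max m n + 1, hQB _ _ ⟨hb, hmono (by omega) hbE⟩⟩
  have hxA : x ∈ ⋃ n, (s n).1.1 := mem_iUnion.2 ⟨0, rfl⟩
  have hyB : y ∈ ⋃ n, (s n).1.2 := mem_iUnion.2 ⟨0, rfl⟩
  filter_upwards [prod_mem_nhds (hoA.mem_nhds hxA) (hoB.mem_nhds hyB)]
  rintro ⟨a, b⟩ ⟨ha, hb⟩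
  obtain ⟨n, hn⟩ := mem_iUnion.1 ha
  obtain ⟨m, hm⟩ := mem_iUnion.1 hb
  exact (s (max n m)).2.2.2.2.2 ⟨hm1 (le_max_left _ _) hn, hm2 (le_max_right _ _) hm⟩

/-! ### The topology `kTop` -/

section

set_option linter.unusedSectionVars false

variable {H : Type} [CommGroup H] [τ₀ : TopologicalSpace H] [g₀ : IsTopologicalGroup H]
  [t₀ : T2Space H] {K : Type} [TopologicalSpace K] [CompactSpace K] {i : K → H}

/-- the product map -/
def pm (i : K → H) (n : ℕ) (x : Fin n → K) : H := ∏ j, i (x j)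

lemma continuous_pm (hi : Continuous i) (n : ℕ) : Continuous (pm i n) := by
  unfold pm
  fun_prop

lemma range_pm (n : ℕ) : range (pm i n) = Hn i n := rfl

lemma isCompact_Hn (hi : Continuous i) (n : ℕ) : IsCompact (Hn i n) :=
  isCompact_range (continuous_pm hi n)

lemma Hn_mul {n m : ℕ} {a b : H} (ha : a ∈ Hn i n) (hb : b ∈ Hn i m) : a * b ∈ Hn i (n + m) := by
  obtain ⟨x, rfl⟩ := ha
  obtain ⟨y, rfl⟩ := hb
  refine ⟨Fin.append x y, ?_⟩
  simp [Fin.prod_univ_add]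

lemma Hn_zero : (1 : H) ∈ Hn i 0 := ⟨Fin.elim0, by simp⟩

lemma Hn_one (k : K) : i k ∈ Hn i 1 := ⟨fun _ => k, by simp⟩

lemma Hn_mono (hone : ∃ o, i o = 1) : Monotone (Hn i) := by
  apply monotone_nat_of_le_succ
  intro n a ha
  obtain ⟨o, ho⟩ := hone
  have h1 : (1 : H) ∈ Hn i 1 := ho ▸ Hn_one o
  have := Hn_mul ha h1
  rwa [mul_one] at this

theorem kTop_isClosed_iff (hi : Continuous i) (C : Set H) :
    IsClosed[kTop τ₀ i] C ↔ ∀ n, IsClosed (C ∩ Hn i n) := by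
  rw [isClosed_iSup_iff]
  apply forall_congr'
  intro n
  rw [isClosed_coinduced, isClosed_induced_iff]
  constructor
  · rintro ⟨F, hF, hFC⟩
    have : C ∩ Hn i n = F ∩ Hn i n := by
      rw [inter_comm C, inter_comm F]
      exact Subtype.preimage_coe_eq_preimage_coe_iff.1 hFC.symm
    rw [this]
    exact hF.inter (isCompact_Hn hi n).isClosed
  · intro h
    refine ⟨C ∩ Hn i n, h, ?_⟩
    ext ⟨x, hx⟩
    simp

theorem kTop_le_base : kTop τ₀ i ≤ τ₀ := by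
  apply iSup_le
  intro n
  rw [← continuous_iff_coinduced_le]
  exact continuous_induced_dom

theorem kTop_t2 : @T2Space H (kTop τ₀ i) :=
  @T2Space.of_injective_continuous H H (kTop τ₀ i) τ₀ _ id Function.injective_id
    (continuous_id_of_le kTop_le_base)

theorem continuous_pm_k (hi : Continuous i) (n : ℕ) :
    @Continuous _ _ _ (kTop τ₀ i) (pm i n) := by
  rw [@continuous_iff_isClosed _ _ _ (kTop τ₀ i)]
  intro C hC
  rw [kTop_isClosed_iff hi] at hC
  have : pm i n ⁻¹' C = pm i n ⁻¹' (C ∩ Hn i n) := by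
    ext x
    simp only [mem_preimage, mem_inter_iff, ← range_pm, mem_range_self, and_true]
  rw [this]
  exact (hC n).preimage (continuous_pm hi n)

theorem kTop_continuous (hi : Continuous i) : @Continuous K H _ (kTop τ₀ i) i := by
  have h := continuous_pm_k hi 1
  have h2 : i = pm i 1 ∘ (fun k _ => k) := by
    ext k; simp [pm]
  rw [h2]
  exact @Continuous.comp _ _ _ _ _ (kTop τ₀ (pm i 1 ∘ fun k _ => k)) _ _ (h2 ▸ h)
    (continuous_pi fun _ => continuous_id)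

theorem isCompact_Hn_k (hi : Continuous i) (n : ℕ) : @IsCompact H (kTop τ₀ i) (Hn i n) :=
  @isCompact_range _ _ _ (kTop τ₀ i) _ _ (continuous_pm_k hi n)

theorem kTop_kspace (hi : Continuous i) : @IsKSpace H (kTop τ₀ i) := by
  intro A hA
  rw [kTop_isClosed_iff hi]
  intro n
  have h1 := hA (Hn i n) (isCompact_Hn_k hi n)
  rw [kTop_isClosed_iff hi] at h1
  have := h1 n
  rwa [inter_assoc, inter_self] at this

lemma continuous_pm_of {H : Type} [CommGroup H] (σ : TopologicalSpace H) [IsTopologicalGroup H]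
    {K : Type} [TopologicalSpace K] {i : K → H} (h : Continuous i) (n : ℕ) :
    Continuous (pm i n) := by
  unfold pm
  fun_prop

lemma closed_two {X H : Type} [TopologicalSpace X] [CompactSpace X] (σ τ : TopologicalSpace H)
    (hT2 : @T2Space H τ) (f : X → H) (h0 : @Continuous X H _ τ f) (h1 : @Continuous X H _ σ f)
    {C : Set H} (hC : IsClosed[σ] C) : IsClosed[τ] (C ∩ range f) := by
  have e : C ∩ range f = f '' (f ⁻¹' C) := by rw [image_preimage_eq_inter_range]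
  have h2 : IsClosed (f ⁻¹' C) := @IsClosed.preimage _ _ _ σ _ h1 _ hC
  rw [e]
  exact @IsCompact.isClosed H τ hT2 _ (@IsCompact.image _ _ _ τ _ _ h2.isCompact h0)

/-- `kTop` is the finest group topology for which `i` is continuous -/
theorem kTop_le (hi : Continuous i) (σ : TopologicalSpace H) (hσ : @IsTopologicalGroup H σ _)
    (h : @Continuous K H _ σ i) : kTop τ₀ i ≤ σ := by
  rw [← continuous_id_iff_le, @continuous_iff_isClosed _ _ (kTop τ₀ i) σ]
  intro C hC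
  refine (@kTop_isClosed_iff H _ τ₀ g₀ t₀ K _ _ i hi C).2 fun n => ?_
  exact closed_two σ τ₀ t₀ (pm i n) (@continuous_pm H _ τ₀ g₀ t₀ K _ _ i hi n)
    (@continuous_pm_of H _ σ hσ K _ i h n) hC

theorem kTop_det (hi : Continuous i) (C : Set H) (h : ∀ n, IsClosed[kTop τ₀ i] (C ∩ Hn i n)) :
    IsClosed[kTop τ₀ i] C := by
  rw [kTop_isClosed_iff hi]
  intro n
  have := h n
  rw [kTop_isClosed_iff hi] at this
  have := this n
  rwa [inter_assoc, inter_self] at this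

theorem tight_of_images {X : Type} [TopologicalSpace X] [T2Space X] (Y : ℕ → Type)
    [∀ n, TopologicalSpace (Y n)] [∀ n, CompactSpace (Y n)] (hY : ∀ n, CountablyTight (Y n))
    (f : ∀ n, Y n → X) (hf : ∀ n, Continuous (f n))
    (hdet : ∀ C : Set X, (∀ n, IsClosed (C ∩ range (f n))) → IsClosed C) :
    CountablyTight X := by
  apply tight_of_cc_closed
  intro A
  apply hdet
  intro n
  apply isClosed_of_closure_subset
  intro x hx
  obtain ⟨B, hB, hBc, hxB⟩ := (hY n).image (hf n) (hf n).isClosedMap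
    (A := cc A ∩ range (f n)) inter_subset_right hx
  refine ⟨omClosed_cc A B (hB.trans inter_subset_left) hBc hxB, ?_⟩
  exact closure_minimal (hB.trans inter_subset_right) (isCompact_range (hf n)).isClosed hxB

theorem kTop_tight [T2Space K] (hi : Continuous i) (hK : CountablyTight K) :
    @CountablyTight H (kTop τ₀ i) :=
  @tight_of_images H (kTop τ₀ i) kTop_t2 (fun n => Fin n → K) _ _ (fun n => hK.pi n)
    (fun n => pm i n) (continuous_pm_k hi) (kTop_det hi)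

theorem kTop_group (hi : Continuous i) (hinv : ∀ x, ∃ y, i y = (i x)⁻¹) (hone : ∃ o, i o = 1)
    (hgen : ∀ h, ∃ n, h ∈ Hn i n) : @IsTopologicalGroup H (kTop τ₀ i) _ := by
  have hT2 : @T2Space H (kTop τ₀ i) := kTop_t2
  have hsq := @isClosed_sq H (kTop τ₀ i) hT2 (Hn i) (isCompact_Hn_k hi) (Hn_mono hone) hgen
    (kTop_det hi)
  have hmul : @Continuous (H × H) H (@instTopologicalSpaceProd H H (kTop τ₀ i) (kTop τ₀ i))
      (kTop τ₀ i) (fun p => p.1 * p.2) := by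
    rw [@continuous_iff_isClosed _ _ (@instTopologicalSpaceProd H H (kTop τ₀ i) (kTop τ₀ i))
      (kTop τ₀ i)]
    intro C hC
    apply hsq
    intro n
    rw [kTop_isClosed_iff hi] at hC
    have h1 : (fun p : H × H => p.1 * p.2) ⁻¹' C ∩ Hn i n ×ˢ Hn i n =
        (fun p : H × H => p.1 * p.2) ⁻¹' (C ∩ Hn i (n + n)) ∩ Hn i n ×ˢ Hn i n := by
      ext ⟨a, b⟩
      simp only [mem_inter_iff, mem_preimage, mem_prod]
      constructor
      · rintro ⟨h1, h2, h3⟩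
        exact ⟨⟨h1, Hn_mul h2 h3⟩, h2, h3⟩
      · rintro ⟨⟨h1, -⟩, h2, h3⟩
        exact ⟨h1, h2, h3⟩
    rw [h1]
    have h2 : IsClosed ((fun p : H × H => p.1 * p.2) ⁻¹' (C ∩ Hn i (n + n)) ∩
        Hn i n ×ˢ Hn i n) :=
      ((hC _).preimage continuous_mul).inter
        ((isCompact_Hn hi n).isClosed.prod (isCompact_Hn hi n).isClosed)
    have h3 : @instTopologicalSpaceProd H H (kTop τ₀ i) (kTop τ₀ i) ≤
        @instTopologicalSpaceProd H H τ₀ τ₀ :=
      inf_le_inf (induced_mono kTop_le_base) (induced_mono kTop_le_base)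
    exact h2.mono h3
  have hinvc : @Continuous H H (kTop τ₀ i) (kTop τ₀ i) (fun x => x⁻¹) := by
    rw [@continuous_iff_isClosed _ _ (kTop τ₀ i) (kTop τ₀ i)]
    intro C hC
    rw [kTop_isClosed_iff hi] at hC ⊢
    intro n
    have hinvH : ∀ a ∈ Hn i n, a⁻¹ ∈ Hn i n := by
      rintro _ ⟨x, rfl⟩
      choose y hy using hinv
      exact ⟨fun j => y (x j), by simp [hy]⟩
    have h1 : (fun x : H => x⁻¹) ⁻¹' C ∩ Hn i n = (fun x : H => x⁻¹) ⁻¹' (C ∩ Hn i n) := by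
      ext a
      simp only [mem_inter_iff, mem_preimage]
      constructor
      · rintro ⟨h1, h2⟩
        exact ⟨h1, hinvH a h2⟩
      · rintro ⟨h1, h2⟩
        refine ⟨h1, ?_⟩
        have := hinvH _ h2
        rwa [inv_inv] at this
    rw [h1]
    exact (hC n).preimage continuous_inv
  exact @IsTopologicalGroup.mk H (kTop τ₀ i) _ (@ContinuousMul.mk H (kTop τ₀ i) _ hmul)
    (@ContinuousInv.mk H (kTop τ₀ i) _ hinvc)

end

end P8e9337
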