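import Pool.Agent.Lib.P8e9337.Core

set_option autoImplicit false
set_option linter.unusedSectionVars false
open Set Filter Topology

namespace Pool.Agent.P8e9337

variable {W : Type} [LinearOrder W]

/-- The underlying set of the compact space. -/
def KK (_T : W → Set ℕ) : Type := Option (ℕ ⊕ W)

variable {T : W → Set ℕ}

def KK.inf (T : W → Set ℕ) : KK T := (none : Option (ℕ ⊕ W))
def KK.l (T : W → Set ℕ) (n : ℕ) : KK T := (some (Sum.inl n) : Option (ℕ ⊕ W))
def KK.r (T : W → Set ℕ) (β : W) : KK T := (some (Sum.inr β) : Option (ℕ ⊕ W))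

theorem KK.cases' {P : KK T → Prop} (h1 : P (KK.inf T)) (h2 : ∀ n, P (KK.l T n))
    (h3 : ∀ β, P (KK.r T β)) (k : KK T) : P k := by
  match k with
  | none => exact h1
  | some (Sum.inl n) => exact h2 n
  | some (Sum.inr β) => exact h3 β

theorem KK.l_inj {n m : ℕ} : KK.l T n = KK.l T m ↔ n = m := by
  constructor
  · intro h; exact Sum.inl.inj (Option.some.inj h)
  · rintro rfl; rfl

theorem KK.r_inj {n m : W} : KK.r T n = KK.r T m ↔ n = m := by
  constructor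
  · intro h; exact Sum.inr.inj (Option.some.inj h)
  · rintro rfl; rfl

theorem KK.l_ne_r {n : ℕ} {β : W} : KK.l T n ≠ KK.r T β := by
  intro h; exact Sum.inl_ne_inr (Option.some.inj h)
theorem KK.l_ne_inf {n : ℕ} : KK.l T n ≠ KK.inf T := by
  intro h; exact Option.some_ne_none _ h
theorem KK.r_ne_inf {β : W} : KK.r T β ≠ KK.inf T := by
  intro h; exact Option.some_ne_none _ h

/-- The closure of `T γ`. -/
def That (T : W → Set ℕ) (γ : W) : Set (KK T) :=
  {k | match (k : Option (ℕ ⊕ W)) with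
    | none => False
    | some (Sum.inl n) => n ∈ T γ
    | some (Sum.inr β) => T β \ T γ ∈ I T β}

@[simp] theorem inf_mem_That {γ : W} : KK.inf T ∈ That T γ ↔ False := Iff.rfl
@[simp] theorem l_mem_That {γ : W} {n : ℕ} : KK.l T n ∈ That T γ ↔ n ∈ T γ := Iff.rfl
@[simp] theorem r_mem_That {γ β : W} : KK.r T β ∈ That T γ ↔ T β \ T γ ∈ I T β := Iff.rfl

def Gen (T : W → Set ℕ) : Set (Set (KK T)) :=
  {s | (∃ n, s = {KK.l T n} ∨ s = {KK.l T n}ᶜ) ∨ (∃ γ, s = That T γ ∨ s = (That T γ)ᶜ)}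

instance : TopologicalSpace (KK T) := TopologicalSpace.generateFrom (Gen T)

theorem le_nhds_iff {F : Filter (KK T)} {k : KK T} :
    F ≤ 𝓝 k ↔ ∀ s ∈ Gen T, k ∈ s → s ∈ F := by
  rw [TopologicalSpace.nhds_generateFrom]
  simp only [le_iInf_iff, le_principal_iff, mem_ofPred_eq]
  constructor
  · intro h s hs hk; exact h s ⟨hk, hs⟩
  · intro h s hs; exact h s hs.2 hs.1

theorem Gen.isOpen {s : Set (KK T)} (h : s ∈ Gen T) : IsOpen s :=
  TopologicalSpace.isOpen_generateFrom_of_mem h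

theorem Gen.compl {s : Set (KK T)} (h : s ∈ Gen T) : sᶜ ∈ Gen T := by
  rcases h with ⟨n, h⟩ | ⟨γ, h⟩
  · left
    refine ⟨n, ?_⟩
    rcases h with rfl | rfl
    · exact Or.inr rfl
    · left; rw [compl_compl]
  · right
    refine ⟨γ, ?_⟩
    rcases h with rfl | rfl
    · exact Or.inr rfl
    · left; rw [compl_compl]

theorem Gen.isClopen {s : Set (KK T)} (h : s ∈ Gen T) : IsClopen s :=
  ⟨⟨Gen.isOpen (Gen.compl h)⟩, Gen.isOpen h⟩

theorem isClopen_That (γ : W) : IsClopen (That T γ) := Gen.isClopen (Or.inr ⟨γ, Or.inl rfl⟩)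
theorem isClopen_l (n : ℕ) : IsClopen ({KK.l T n} : Set (KK T)) :=
  Gen.isClopen (Or.inl ⟨n, Or.inl rfl⟩)

/-- finite unions -/
def NN (T : W → Set ℕ) (F : Finset ℕ) (H : Finset W) : Set (KK T) :=
  {k | (∃ n ∈ F, k = KK.l T n) ∨ ∃ g ∈ H, k ∈ That T g}

theorem isClopen_NN (F : Finset ℕ) (H : Finset W) : IsClopen (NN T F H) := by
  have : NN T F H = (⋃ n ∈ F, {KK.l T n}) ∪ (⋃ g ∈ H, That T g) := by
    ext k
    simp [NN]
  rw [this]
  exact (isClopen_biUnion_finset (fun n _ => isClopen_l n)).union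
    (isClopen_biUnion_finset (fun g _ => isClopen_That g))

theorem NN_union [DecidableEq W] (F F' : Finset ℕ) (H H' : Finset W) :
    NN T (F ∪ F') (H ∪ H') = NN T F H ∪ NN T F' H' := by
  ext k
  simp only [NN, mem_ofPred_eq, mem_union, Finset.mem_union]
  constructor
  · rintro (⟨n, h | h, h'⟩ | ⟨n, h | h, h'⟩)
    · exact Or.inl (Or.inl ⟨n, h, h'⟩)
    · exact Or.inr (Or.inl ⟨n, h, h'⟩)
    · exact Or.inl (Or.inr ⟨n, h, h'⟩)
    · exact Or.inr (Or.inr ⟨n, h, h'⟩)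
  · rintro ((⟨n, h, h'⟩ | ⟨n, h, h'⟩) | (⟨n, h, h'⟩ | ⟨n, h, h'⟩))
    · exact Or.inl ⟨n, Or.inl h, h'⟩
    · exact Or.inr ⟨n, Or.inl h, h'⟩
    · exact Or.inl ⟨n, Or.inr h, h'⟩
    · exact Or.inr ⟨n, Or.inr h, h'⟩

section
variable (hdec : ∀ β γ, β < γ → Dec T β (T γ)) (hT : ∀ α, T α ∉ I T α)
include hdec

theorem dec_all (β γ : W) : Dec T β (T γ) := by
  rcases lt_trichotomy γ β with h | rfl | h
  · exact Or.inr (I_mono (I_self h) inter_subset_right)
  · left; rw [sdiff_self]; exact I_finite finite_empty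
  · exact hdec β γ h

include hT

theorem not_both {β : W} {c : Set ℕ} (h1 : T β \ c ∈ I T β) : T β ∩ c ∉ I T β := by
  intro h
  apply hT β
  refine I_mono (I_union h1 h) ?_
  intro x hx
  by_cases hc : x ∈ c
  · exact Or.inr ⟨hx, hc⟩
  · exact Or.inl ⟨hx, hc⟩

theorem cover {c : Set ℕ} {F : Finset ℕ} {H : Finset W} (hc : c ⊆ (F : Set ℕ) ∪ ⋃ g ∈ H, T g)
    {β : W} (h : T β \ c ∈ I T β) : ∃ g ∈ H, T β \ T g ∈ I T β := by
  classical
  by_contra hcon
  push Not at hcon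
  have h1 : ∀ g ∈ H, T β ∩ T g ∈ I T β := fun g hg => (dec_all hdec β g).resolve_left (hcon g hg)
  have h2 : ∀ H' : Finset W, H' ⊆ H → (⋃ g ∈ H', (T β ∩ T g)) ∈ I T β := by
    intro H'
    induction H' using Finset.induction_on with
    | empty => intro _; simpa using I_finite finite_empty
    | insert a s ha ih =>
      intro hs
      rw [Finset.set_biUnion_insert]
      exact I_union (h1 a (hs (Finset.mem_insert_self _ _)))
        (ih (fun x hx => hs (Finset.mem_insert_of_mem hx)))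
  apply hT β
  refine I_mono (I_union (I_union h (I_finite F.finite_toSet)) (h2 H subset_rfl)) ?_
  intro x hx
  by_cases hxc : x ∈ c
  · rcases hc hxc with h | h
    · exact Or.inl (Or.inr h)
    · right
      simp only [mem_iUnion] at h ⊢
      obtain ⟨g, hg, h⟩ := h
      exact ⟨g, hg, hx, h⟩
  · exact Or.inl (Or.inl ⟨hx, hxc⟩)

/-- lifting inclusions from `ℕ` to the space -/
theorem lift_sdiff {γ δ : W} {F : Finset ℕ} {H : Finset W}
    (hc : T γ \ T δ ⊆ (F : Set ℕ) ∪ ⋃ g ∈ H, T g) : That T γ ∩ (That T δ)ᶜ ⊆ NN T F H := by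
  intro k
  induction k using KK.cases' with
  | h1 => simp
  | h2 n =>
    rintro ⟨h1, h2⟩
    simp only [mem_compl_iff, l_mem_That] at h1 h2
    rcases hc ⟨h1, h2⟩ with h | h
    · exact Or.inl ⟨n, h, rfl⟩
    · simp only [mem_iUnion] at h
      obtain ⟨g, hg, h⟩ := h
      exact Or.inr ⟨g, hg, h⟩
  | h3 β =>
    rintro ⟨h1, h2⟩
    simp only [mem_compl_iff, r_mem_That] at h1 h2
    have h3 : T β ∩ T δ ∈ I T β := (dec_all hdec β δ).resolve_left h2
    have h4 : T β \ (T γ \ T δ) ∈ I T β := by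
      refine I_mono (I_union h1 h3) ?_
      rintro x ⟨hx1, hx2⟩
      by_cases hxγ : x ∈ T γ
      · right
        refine ⟨hx1, ?_⟩
        by_contra hcon
        exact hx2 ⟨hxγ, hcon⟩
      · exact Or.inl ⟨hx1, hxγ⟩
    obtain ⟨g, hg, h⟩ := cover hdec hT hc h4
    exact Or.inr ⟨g, hg, h⟩

theorem lift_inter {γ δ : W} {F : Finset ℕ} {H : Finset W}
    (hc : T γ ∩ T δ ⊆ (F : Set ℕ) ∪ ⋃ g ∈ H, T g) : That T γ ∩ That T δ ⊆ NN T F H := by
  intro k
  induction k using KK.cases' with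
  | h1 => simp
  | h2 n =>
    rintro ⟨h1, h2⟩
    simp only [l_mem_That] at h1 h2
    rcases hc ⟨h1, h2⟩ with h | h
    · exact Or.inl ⟨n, h, rfl⟩
    · simp only [mem_iUnion] at h
      obtain ⟨g, hg, h⟩ := h
      exact Or.inr ⟨g, hg, h⟩
  | h3 β =>
    rintro ⟨h1, h2⟩
    simp only [r_mem_That] at h1 h2
    have h4 : T β \ (T γ ∩ T δ) ∈ I T β := by
      refine I_mono (I_union h1 h2) ?_
      rintro x ⟨hx1, hx2⟩
      by_cases hxγ : x ∈ T γ
      · right
        exact ⟨hx1, fun hcon => hx2 ⟨hxγ, hcon⟩⟩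
      · exact Or.inl ⟨hx1, hxγ⟩
    obtain ⟨g, hg, h⟩ := cover hdec hT hc h4
    exact Or.inr ⟨g, hg, h⟩

theorem self_mem (α : W) : KK.r T α ∈ That T α := by
  rw [r_mem_That, sdiff_self]
  exact I_finite finite_empty

theorem notMem_lt {α γ : W} (h : γ < α) : KK.r T α ∉ That T γ := by
  rw [r_mem_That]
  exact fun h' => not_mem_of_sdiff (hT α) (I_self h) h'

theorem notMem_NN {α : W} {F : Finset ℕ} {H : Finset W} (h : ∀ g ∈ H, g < α) :
    KK.r T α ∉ NN T F H := by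
  rintro (⟨n, _, h'⟩ | ⟨g, hg, h'⟩)
  · exact KK.l_ne_r h'.symm
  · exact notMem_lt hdec hT (h g hg) h'

omit hdec hT in
theorem inf_notMem_NN {F : Finset ℕ} {H : Finset W} : KK.inf T ∉ NN T F H := by
  rintro (⟨n, _, h'⟩ | ⟨g, hg, h'⟩)
  · exact KK.l_ne_inf h'.symm
  · exact h'

omit hdec hT in
theorem basis_inf : (𝓝 (KK.inf T)).HasBasis (fun _ : Finset ℕ × Finset W => True)
    (fun p => (NN T p.1 p.2)ᶜ) := by
  classical
  let G : Filter (KK T) :=
    { sets := {s | ∃ F H, (NN T F H)ᶜ ⊆ s}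
      univ_sets := ⟨∅, ∅, subset_univ _⟩
      sets_of_superset := by
        rintro s t ⟨F, H, h⟩ hst
        exact ⟨F, H, h.trans hst⟩
      inter_sets := by
        rintro s t ⟨F, H, h⟩ ⟨F', H', h'⟩
        refine ⟨F ∪ F', H ∪ H', ?_⟩
        rw [NN_union, compl_union]
        exact inter_subset_inter h h' }
  have hG : G ≤ 𝓝 (KK.inf T) := by
    rw [le_nhds_iff]
    rintro s (⟨n, rfl | rfl⟩ | ⟨γ, rfl | rfl⟩) hs
    · exact absurd hs (fun h => KK.l_ne_inf (h : KK.inf T = KK.l T n).symm)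
    · refine ⟨{n}, ∅, compl_subset_compl.2 ?_⟩
      rintro _ rfl
      exact Or.inl ⟨n, by simp, rfl⟩
    · exact absurd hs id
    · refine ⟨∅, {γ}, compl_subset_compl.2 ?_⟩
      intro k hk
      exact Or.inr ⟨γ, by simp, hk⟩
  rw [hasBasis_iff]
  intro s
  constructor
  · intro hs
    obtain ⟨F, H, h⟩ := hG hs
    exact ⟨(F, H), trivial, h⟩
  · rintro ⟨p, -, h⟩
    exact mem_of_superset ((isClopen_NN p.1 p.2).compl.isOpen.mem_nhds inf_notMem_NN) h

theorem basis_r (α : W) : (𝓝 (KK.r T α)).HasBasis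
    (fun p : Finset ℕ × Finset W => ∀ g ∈ p.2, g < α)
    (fun p => That T α ∩ (NN T p.1 p.2)ᶜ) := by
  classical
  let G : Filter (KK T) :=
    { sets := {s | ∃ F H, (∀ g ∈ H, g < α) ∧ That T α ∩ (NN T F H)ᶜ ⊆ s}
      univ_sets := ⟨∅, ∅, by simp, subset_univ _⟩
      sets_of_superset := by
        rintro s t ⟨F, H, hH, h⟩ hst
        exact ⟨F, H, hH, h.trans hst⟩
      inter_sets := by
        rintro s t ⟨F, H, hH, h⟩ ⟨F', H', hH', h'⟩
        refine ⟨F ∪ F', H ∪ H', ?_, ?_⟩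
        · intro g hg
          rcases Finset.mem_union.1 hg with hg | hg
          · exact hH g hg
          · exact hH' g hg
        · rw [NN_union, compl_union, inter_inter_distrib_left]
          exact inter_subset_inter h h' }
  have hG : G ≤ 𝓝 (KK.r T α) := by
    rw [le_nhds_iff]
    rintro s (⟨n, rfl | rfl⟩ | ⟨γ, rfl | rfl⟩) hs
    · exact absurd hs (fun h => KK.l_ne_r (h : KK.r T α = KK.l T n).symm)
    · refine ⟨{n}, ∅, by simp, ?_⟩
      intro k hk hk'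
      exact hk.2 (Or.inl ⟨n, by simp, hk'⟩)
    · obtain ⟨F, H, hH, h⟩ := (r_mem_That.1 hs)
      refine ⟨F, H, hH, ?_⟩
      intro k hk
      by_contra hcon
      exact hk.2 (lift_sdiff hdec hT h ⟨hk.1, hcon⟩)
    · have h1 : T α ∩ T γ ∈ I T α := (dec_all hdec α γ).resolve_left hs
      obtain ⟨F, H, hH, h⟩ := h1
      refine ⟨F, H, hH, ?_⟩
      intro k hk hcon
      exact hk.2 (lift_inter hdec hT h ⟨hk.1, hcon⟩)
  rw [hasBasis_iff]
  intro s
  constructor
  · intro hs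
    obtain ⟨F, H, hH, h⟩ := hG hs
    exact ⟨(F, H), hH, h⟩
  · rintro ⟨p, hp, h⟩
    refine mem_of_superset (((isClopen_That α).inter (isClopen_NN p.1 p.2).compl).isOpen.mem_nhds
      ⟨self_mem hdec hT α, notMem_NN hdec hT hp⟩) h

theorem cg_r (hW : ∀ α : W, (Iio α).Countable) (α : W) :
    (𝓝 (KK.r T α)).IsCountablyGenerated := by
  refine (HasCountableBasis.mk (basis_r hdec hT α) ?_).isCountablyGenerated
  have : {p : Finset ℕ × Finset W | ∀ g ∈ p.2, g < α} ⊆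
      (univ : Set (Finset ℕ)) ×ˢ {H : Finset W | (H : Set W) ⊆ Iio α} := by
    rintro ⟨F, H⟩ h
    exact ⟨trivial, fun g hg => h g hg⟩
  refine Countable.mono this (countable_univ.prod ?_)
  have h2 : {H : Finset W | (H : Set W) ⊆ Iio α} =
      (fun H : Finset W => (H : Set W)) ⁻¹' {t | t.Finite ∧ t ⊆ Iio α} := by
    ext H; simp
  rw [h2]
  exact (Set.countable_ofPred_finite_subset (hW α)).preimage Finset.coe_injective

omit hdec hT in
theorem nhds_l (n : ℕ) : 𝓝 (KK.l T n) = pure (KK.l T n) := by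
  exact (isOpen_singleton_iff_nhds_eq_pure _).1 (isClopen_l n).isOpen

/-- Hausdorff -/
theorem t2 : T2Space (KK T) := by
  have key : ∀ x y : KK T, x ≠ y → ∃ s, IsClopen s ∧ ((x ∈ s ∧ y ∉ s) ∨ (y ∈ s ∧ x ∉ s)) := by
    intro x y hxy
    induction x using KK.cases' with
    | h1 =>
      induction y using KK.cases' with
      | h1 => exact absurd rfl hxy
      | h2 n => exact ⟨_, isClopen_l n, Or.inr ⟨rfl, hxy⟩⟩
      | h3 β => exact ⟨_, isClopen_That β, Or.inr ⟨self_mem hdec hT β, id⟩⟩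
    | h2 m => exact ⟨_, isClopen_l m, Or.inl ⟨rfl, hxy.symm⟩⟩
    | h3 γ =>
      induction y using KK.cases' with
      | h1 => exact ⟨_, isClopen_That γ, Or.inl ⟨self_mem hdec hT γ, id⟩⟩
      | h2 n => exact ⟨_, isClopen_l n, Or.inr ⟨rfl, hxy⟩⟩
      | h3 β =>
        rcases lt_trichotomy γ β with h | rfl | h
        · exact ⟨_, isClopen_That γ, Or.inl ⟨self_mem hdec hT γ, notMem_lt hdec hT h⟩⟩
        · exact absurd rfl hxy
        · exact ⟨_, isClopen_That β, Or.inr ⟨self_mem hdec hT β, notMem_lt hdec hT h⟩⟩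
  constructor
  intro x y hxy
  obtain ⟨s, hs, h | h⟩ := key x y hxy
  · exact ⟨s, sᶜ, hs.isOpen, hs.compl.isOpen, h.1, h.2, disjoint_compl_right⟩
  · exact ⟨sᶜ, s, hs.compl.isOpen, hs.isOpen, h.2, h.1, disjoint_compl_left⟩

theorem exists_clopen_sep {x y : KK T} (hxy : x ≠ y) : ∃ s : Set (KK T), IsClopen s ∧ x ∈ s ∧ y ∉ s := by
  have key : ∀ x y : KK T, x ≠ y → ∃ s, IsClopen s ∧ ((x ∈ s ∧ y ∉ s) ∨ (y ∈ s ∧ x ∉ s)) := by
    intro x y hxy
    induction x using KK.cases' with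
    | h1 =>
      induction y using KK.cases' with
      | h1 => exact absurd rfl hxy
      | h2 n => exact ⟨_, isClopen_l n, Or.inr ⟨rfl, hxy⟩⟩
      | h3 β => exact ⟨_, isClopen_That β, Or.inr ⟨self_mem hdec hT β, id⟩⟩
    | h2 m => exact ⟨_, isClopen_l m, Or.inl ⟨rfl, hxy.symm⟩⟩
    | h3 γ =>
      induction y using KK.cases' with
      | h1 => exact ⟨_, isClopen_That γ, Or.inl ⟨self_mem hdec hT γ, id⟩⟩
      | h2 n => exact ⟨_, isClopen_l n, Or.inr ⟨rfl, hxy⟩⟩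
      | h3 β =>
        rcases lt_trichotomy γ β with h | rfl | h
        · exact ⟨_, isClopen_That γ, Or.inl ⟨self_mem hdec hT γ, notMem_lt hdec hT h⟩⟩
        · exact absurd rfl hxy
        · exact ⟨_, isClopen_That β, Or.inr ⟨self_mem hdec hT β, notMem_lt hdec hT h⟩⟩
  obtain ⟨s, hs, h | h⟩ := key x y hxy
  · exact ⟨s, hs, h.1, h.2⟩
  · exact ⟨sᶜ, hs.compl, h.2, fun h' => h' h.1⟩

omit hdec hT in
theorem ultra_NN (𝓤 : Ultrafilter (KK T)) {F : Finset ℕ} {H : Finset W} (h : NN T F H ∈ 𝓤) :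
    (∃ n, {KK.l T n} ∈ 𝓤) ∨ ∃ g ∈ H, That T g ∈ 𝓤 := by
  have : NN T F H = (⋃ n ∈ (F : Set ℕ), {KK.l T n}) ∪ (⋃ g ∈ (H : Set W), That T g) := by
    ext k
    simp [NN]
  rw [this] at h
  rcases Ultrafilter.union_mem_iff.1 h with h | h
  · left
    obtain ⟨n, _, h⟩ := (Ultrafilter.finite_biUnion_mem_iff F.finite_toSet).1 h
    exact ⟨n, h⟩
  · right
    obtain ⟨g, hg, h⟩ := (Ultrafilter.finite_biUnion_mem_iff H.finite_toSet).1 h
    exact ⟨g, hg, h⟩

/-- Compactness -/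
theorem compact [WellFoundedLT W] : CompactSpace (KK T) := by
  constructor
  rw [isCompact_iff_ultrafilter_le_nhds]
  intro 𝓤 _
  by_cases hA : ∃ n, {KK.l T n} ∈ 𝓤
  · obtain ⟨n, hn⟩ := hA
    refine ⟨KK.l T n, mem_univ _, ?_⟩
    rw [nhds_l]
    exact le_pure_iff.2 hn
  · by_cases hB : ∃ γ, That T γ ∈ 𝓤
    · obtain ⟨γ, hγ, hmin⟩ := WellFounded.has_min (wellFounded_lt (α := W))
        {γ | That T γ ∈ 𝓤} hB
      refine ⟨KK.r T γ, mem_univ _, ?_⟩
      rw [le_nhds_iff]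
      have hno : ∀ (F : Finset ℕ) (H : Finset W), (∀ g ∈ H, g < γ) → NN T F H ∉ 𝓤 := by
        intro F H hH h
        rcases ultra_NN 𝓤 h with h | ⟨g, hg, h⟩
        · exact hA h
        · exact hmin g h (hH g hg)
      rintro s (⟨n, rfl | rfl⟩ | ⟨δ, rfl | rfl⟩) hs
      · exact absurd hs (fun h => KK.l_ne_r (h : KK.r T γ = KK.l T n).symm)
      · exact Ultrafilter.compl_mem_iff_notMem.2 (fun h => hA ⟨n, h⟩)
      · by_contra hcon
        obtain ⟨F, H, hH, h⟩ := (r_mem_That.1 hs)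
        have h1 : That T γ ∩ (That T δ)ᶜ ∈ 𝓤 :=
          inter_mem hγ (Ultrafilter.compl_mem_iff_notMem.2 hcon)
        exact hno F H hH (mem_of_superset h1 (lift_sdiff hdec hT h))
      · refine Ultrafilter.compl_mem_iff_notMem.2 (fun hcon => ?_)
        obtain ⟨F, H, hH, h⟩ := (dec_all hdec γ δ).resolve_left hs
        exact hno F H hH (mem_of_superset (inter_mem hγ hcon) (lift_inter hdec hT h))
    · refine ⟨KK.inf T, mem_univ _, ?_⟩
      rw [le_nhds_iff]
      rintro s (⟨n, rfl | rfl⟩ | ⟨δ, rfl | rfl⟩) hs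
      · exact absurd hs (fun h => KK.l_ne_inf (h : KK.inf T = KK.l T n).symm)
      · exact Ultrafilter.compl_mem_iff_notMem.2 (fun h => hA ⟨n, h⟩)
      · exact absurd hs id
      · exact Ultrafilter.compl_mem_iff_notMem.2 (fun h => hB ⟨δ, h⟩)

end

end Pool.Agent.P8e9337
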