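import Pool.Agent.Lib.P8e9337.Defs

/-! # MP_8e9337_gt: countable tightness of products and images. -/

open Set Filter Topology

namespace P8e9337

/-- the set of points in the closure of a countable subset of `A` -/
def cc {X : Type*} [TopologicalSpace X] (A : Set X) : Set X :=
  {x | ∃ B ⊆ A, B.Countable ∧ x ∈ closure B}

def OmClosed {X : Type*} [TopologicalSpace X] (S : Set X) : Prop :=
  ∀ C ⊆ S, C.Countable → closure C ⊆ S

section
variable {X Y Z : Type*} [TopologicalSpace X] [TopologicalSpace Y] [TopologicalSpace Z]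

lemma subset_cc (A : Set X) : A ⊆ cc A :=
  fun x hx => ⟨{x}, by simpa using hx, countable_singleton x, subset_closure rfl⟩

lemma omClosed_cc (A : Set X) : OmClosed (cc A) := by
  intro C hC hCc x hx
  have h : ∀ c : C, ∃ B ⊆ A, B.Countable ∧ (c : X) ∈ closure B := fun c => hC c.2
  choose B hBA hBc hB using h
  have := hCc.to_subtype
  refine ⟨⋃ c, B c, iUnion_subset hBA, countable_iUnion hBc, ?_⟩
  have : closure C ⊆ closure (⋃ c, B c) := by
    apply closure_minimal _ isClosed_closure
    intro c hc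
    exact closure_mono (subset_iUnion B ⟨c, hc⟩) (hB ⟨c, hc⟩)
  exact this hx

lemma OmClosed.isClosed {S : Set X} (h : OmClosed S) (hX : CountablyTight X) : IsClosed S := by
  apply isClosed_of_closure_subset
  intro x hx
  obtain ⟨B, hBS, hBc, hxB⟩ := hX S x hx
  exact h B hBS hBc hxB

lemma tight_of_cc_closed (h : ∀ A : Set X, IsClosed (cc A)) : CountablyTight X := by
  intro A x hx
  have : closure A ⊆ cc A := closure_minimal (subset_cc A) (h A)
  exact this hx

theorem CountablyTight.prod [CompactSpace Z] [RegularSpace Z]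
    (hY : CountablyTight Y) (hZ : CountablyTight Z) :
    CountablyTight (Y × Z) := by
  apply tight_of_cc_closed
  intro A
  have hA := omClosed_cc A
  set A' := cc A with hA'
  apply isClosed_of_closure_subset
  rintro ⟨y, z⟩ hyz
  by_contra hn
  -- the slice is closed
  have hsl : IsClosed {z' | (y, z') ∈ A'} := by
    apply OmClosed.isClosed _ hZ
    intro C hC hCc z' hz'
    have h1 : (fun w => (y, w)) '' C ⊆ A' := by
      rintro _ ⟨w, hw, rfl⟩
      exact hC hw
    apply hA _ h1 (hCc.image _)
    exact (image_closure_subset_closure_image (Continuous.prodMk_right y)) ⟨z', hz', rfl⟩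
  have hz : {z' | (y, z') ∈ A'}ᶜ ∈ 𝓝 z := hsl.isOpen_compl.mem_nhds hn
  obtain ⟨F, hF, hFc, hFs⟩ := exists_mem_nhds_isClosed_subset hz
  -- the projection is closed
  have hpr : IsClosed (Prod.fst '' (A' ∩ (univ ×ˢ F))) := by
    apply OmClosed.isClosed _ hY
    intro C hC hCc
    have : ∀ c : C, ∃ x ∈ A' ∩ (univ ×ˢ F), x.1 = c := fun c => hC c.2
    choose f hf hfc using this
    have := hCc.to_subtype
    have h1 : range f ⊆ A' ∩ (univ ×ˢ F) := by
      rintro _ ⟨c, rfl⟩; exact hf c
    have h2 : closure (range f) ⊆ A' ∩ (univ ×ˢ F) := by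
      apply subset_inter
      · exact hA _ (h1.trans inter_subset_left) (countable_range f)
      · exact closure_minimal (h1.trans inter_subset_right) (isClosed_univ.prod hFc)
    have h3 : IsClosed (Prod.fst '' closure (range f)) :=
      isClosedMap_fst_of_compactSpace _ isClosed_closure
    have h4 : closure C ⊆ Prod.fst '' closure (range f) := by
      apply closure_minimal _ h3
      intro c hc
      exact ⟨f ⟨c, hc⟩, subset_closure ⟨_, rfl⟩, hfc _⟩
    exact h4.trans (image_mono h2)
  have hy : y ∈ closure (Prod.fst '' (A' ∩ (univ ×ˢ F))) := by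
    rw [mem_closure_iff_nhds]
    intro U hU
    have h1 : U ×ˢ F ∈ 𝓝 (y, z) := prod_mem_nhds hU hF
    obtain ⟨⟨a, b⟩, hab, hab'⟩ := mem_closure_iff_nhds.1 hyz _ h1
    exact ⟨a, hab.1, ⟨(a, b), ⟨hab', ⟨trivial, hab.2⟩⟩, rfl⟩⟩
  rw [hpr.closure_eq] at hy
  obtain ⟨⟨a, b⟩, ⟨hab, hab2⟩, rfl⟩ := hy
  exact hFs hab2.2 hab

theorem CountablyTight.image (hY : CountablyTight Y) {f : Y → Z} (hf : Continuous f)
    (hcl : IsClosedMap f) {A : Set Z} (hA : A ⊆ range f) {z : Z} (hz : z ∈ closure A) :
    ∃ B ⊆ A, B.Countable ∧ z ∈ closure B := by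
  have h1 : closure A ⊆ f '' closure (f ⁻¹' A) := by
    apply closure_minimal _ (hcl _ isClosed_closure)
    intro a ha
    obtain ⟨y, rfl⟩ := hA ha
    exact ⟨y, subset_closure ha, rfl⟩
  obtain ⟨y, hy, rfl⟩ := h1 hz
  obtain ⟨B, hB, hBc, hyB⟩ := hY _ _ hy
  refine ⟨f '' B, ?_, hBc.image f, image_closure_subset_closure_image hf ⟨y, hyB, rfl⟩⟩
  rintro _ ⟨b, hb, rfl⟩
  exact hB hb

theorem CountablyTight.of_closed
    (hY : CountablyTight Y) {f : Y → Z} (hf : Continuous f) (hcl : IsClosedMap f)
    (hs : Function.Surjective f) : CountablyTight Z := by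
  intro A z hz
  exact hY.image hf hcl (by rw [hs.range_eq]; exact subset_univ _) hz

theorem CountablyTight.subtype (hX : CountablyTight X) (s : Set X) : CountablyTight s := by
  intro A x hx
  have h1 : (x : X) ∈ closure ((↑) '' A : Set X) :=
    image_closure_subset_closure_image continuous_subtype_val ⟨x, hx, rfl⟩
  obtain ⟨B, hB, hBc, hxB⟩ := hX _ _ h1
  refine ⟨(↑) ⁻¹' B, ?_, ?_, ?_⟩
  · intro y hy
    obtain ⟨a, ha, hay⟩ := hB hy
    rwa [← Subtype.ext hay]
  · exact hBc.preimage Subtype.val_injective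
  · rw [closure_subtype]
    have : ((↑) '' ((↑) ⁻¹' B : Set s) : Set X) = B := by
      rw [Subtype.image_preimage_coe]
      apply inter_eq_right.2
      intro b hb
      obtain ⟨a, ha, rfl⟩ := hB hb
      exact a.2
    rwa [this]

end

theorem CountablyTight.pi {Y : Type*} [TopologicalSpace Y] [CompactSpace Y] [T2Space Y]
    (hY : CountablyTight Y) (n : ℕ) : CountablyTight (Fin n → Y) := by
  induction n with
  | zero =>
    intro A x hx
    have : A.Nonempty := by
      rw [← closure_nonempty_iff]; exact ⟨x, hx⟩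
    obtain ⟨a, ha⟩ := this
    refine ⟨{a}, by simpa using ha, countable_singleton a, subset_closure ?_⟩
    exact Subsingleton.elim _ _
  | succ n ih =>
    have h := hY.prod ih
    have hc : Continuous (fun q : Y × (Fin n → Y) => (Fin.cons q.1 q.2 : Fin (n+1) → Y)) := by
      fun_prop
    refine h.of_closed (f := fun q : Y × (Fin n → Y) => (Fin.cons q.1 q.2 : Fin (n+1) → Y)) hc
      hc.isClosedMap ?_
    intro x
    exact ⟨(x 0, Fin.tail x), by simp⟩

end P8e9337
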